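import Mathlib

/-!
# Boolean combinations of systems of conditions, written as nested differences
-/

namespace Pool.Agent.J6H27.TT

section Levels

variable {ρ : Type} (orR : ρ → ρ → ρ) (ff : ρ)

/-- a system expressing that one of two systems holds -/
def orS (s s' : List ρ) : List ρ := s.flatMap (fun r => s'.map (fun r' => orR r r'))

/-- the systems selected by the pattern `a`, together -/
def conj (a : List Bool) (Z : List (List ρ)) : List ρ :=
  (a.zip Z).flatMap (fun y => if y.1 = true then y.2 else [])

/-- a system expressing that all systems selected by some pattern `a` with `sel a` hold -/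
def ups (sel : List Bool → Bool) (Z : List (List ρ)) : List (List Bool) → List ρ
  | [] => [ff]
  | a :: as => if sel a = true then orS orR (conj a Z) (ups sel Z as) else ups sel Z as

/-- all patterns of length `k` -/
def pats : ℕ → List (List Bool)
  | 0 => [[]]
  | k + 1 => (pats k).map (List.cons true) ++ (pats k).map (List.cons false)

/-- the patterns selected at stage `j` -/
def selj (acc : List (List Bool)) (j : ℕ) (a : List Bool) : Bool :=
  decide ((j - 1) / 2 + 1 ≤ a.count true) ||
    (decide (j % 2 = 1) && (decide (a.count true = (j - 1) / 2) && decide (a ∈ acc)))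

/-- the system of stage `j` -/
def lev (k j : ℕ) (x : List (List ρ) × List (List Bool)) : List ρ :=
  ups orR ff (selj x.2 j) x.1 (pats k)

variable {orR ff} {sat : ρ → Prop}

theorem mem_pats {k : ℕ} {a : List Bool} : a ∈ pats k ↔ a.length = k := by
  induction k generalizing a with
  | zero => simp [pats]
  | succ k ih =>
    cases a with
    | nil => simp [pats]
    | cons b a =>
      cases b <;> simp [pats, ih]

theorem length_pats (k : ℕ) : (pats k).length = 2 ^ k := by
  induction k with
  | zero => rfl
  | succ k ih => simp [pats, ih, pow_succ]; ring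

theorem hold_orS (hor : ∀ r r', sat (orR r r') ↔ sat r ∨ sat r') (s s' : List ρ) :
    (∀ r ∈ orS orR s s', sat r) ↔ (∀ r ∈ s, sat r) ∨ (∀ r ∈ s', sat r) := by
  constructor
  · intro h
    by_contra hn
    rw [not_or] at hn
    obtain ⟨h1, h2⟩ := hn
    push Not at h1 h2
    obtain ⟨r, hr, hr'⟩ := h1
    obtain ⟨r2, hr2, hr2'⟩ := h2
    have := h (orR r r2) (List.mem_flatMap.2 ⟨r, hr, List.mem_map.2 ⟨r2, hr2, rfl⟩⟩)
    rw [hor] at this
    tauto
  · intro h r hr
    rw [orS, List.mem_flatMap] at hr
    obtain ⟨r1, hr1, hr⟩ := hr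
    rw [List.mem_map] at hr
    obtain ⟨r2, hr2, rfl⟩ := hr
    rw [hor]
    rcases h with h | h
    · exact Or.inl (h r1 hr1)
    · exact Or.inr (h r2 hr2)

theorem hold_conj (a : List Bool) (Z : List (List ρ)) :
    (∀ r ∈ conj a Z, sat r) ↔ ∀ y ∈ a.zip Z, y.1 = true → ∀ r ∈ y.2, sat r := by
  unfold conj
  simp only [List.mem_flatMap, forall_exists_index, and_imp]
  constructor
  · intro h y hy hy1 r hr
    exact h r y hy (by simp [hy1, hr])
  · intro h r y hy hr
    by_cases hy1 : y.1 = true
    · simp only [hy1, if_true] at hr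
      exact h y hy hy1 r hr
    · simp [hy1] at hr

theorem hold_ups (hor : ∀ r r', sat (orR r r') ↔ sat r ∨ sat r') (hff : ¬ sat ff)
    (sel : List Bool → Bool) (Z : List (List ρ)) (as : List (List Bool)) :
    (∀ r ∈ ups orR ff sel Z as, sat r) ↔ ∃ a ∈ as, sel a = true ∧ ∀ r ∈ conj a Z, sat r := by
  induction as with
  | nil => simp [ups, hff]
  | cons a as ih =>
    unfold ups
    by_cases h : sel a = true
    · simp only [h, if_true, hold_orS hor, ih, List.mem_cons, exists_eq_or_imp, true_and]
    · simp only [h, if_false, ih, List.mem_cons, exists_eq_or_imp, false_and, false_or,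
        Bool.false_eq_true]

open Classical in
/-- the pattern of the systems that hold -/
noncomputable def pat (sat : ρ → Prop) (Z : List (List ρ)) : List Bool :=
  Z.map (fun s => decide (∀ r ∈ s, sat r))

theorem length_pat (Z : List (List ρ)) : (pat sat Z).length = Z.length := by simp [pat]

theorem le_pat : ∀ (a : List Bool) (Z : List (List ρ)), a.length = Z.length →
    (∀ y ∈ a.zip Z, y.1 = true → ∀ r ∈ y.2, sat r) →
    a.count true ≤ (pat sat Z).count true ∧ (a.count true = (pat sat Z).count true →
      a = pat sat Z) := by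
  classical
  intro a
  induction a with
  | nil =>
    intro Z hZ _
    have : Z = [] := List.eq_nil_of_length_eq_zero (by simpa using hZ.symm)
    subst this
    simp [pat]
  | cons b a ih =>
    intro Z hZ h
    cases Z with
    | nil => simp at hZ
    | cons s Z =>
      obtain ⟨h1, h2⟩ := ih Z (by simpa using hZ) (fun y hy => h y (by simp [hy]))
      have h3 := h (b, s) (by simp)
      unfold pat at h1 h2 ⊢
      rw [List.map_cons]
      cases b with
      | true =>
        have h4 : decide (∀ r ∈ s, sat r) = true := decide_eq_true (h3 rfl)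
        rw [h4, List.count_cons_self, List.count_cons_self]
        exact ⟨by omega, fun h => by rw [h2 (by omega)]⟩
      | false =>
        rw [List.count_cons_of_ne (by decide)]
        by_cases h4 : ∀ r ∈ s, sat r
        · rw [decide_eq_true h4, List.count_cons_self]
          exact ⟨by omega, fun h => by omega⟩
        · rw [decide_eq_false h4, List.count_cons_of_ne (by decide)]
          exact ⟨h1, fun h => by rw [h2 h]⟩

theorem pat_holds : ∀ (Z : List (List ρ)), ∀ y ∈ (pat sat Z).zip Z, y.1 = true →
    ∀ r ∈ y.2, sat r := by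
  intro Z
  induction Z with
  | nil => simp [pat]
  | cons s Z ih =>
    intro y hy hy1
    unfold pat at ih hy
    rw [List.map_cons, List.zip_cons_cons, List.mem_cons] at hy
    rcases hy with rfl | hy
    · simpa using hy1
    · exact ih y hy hy1

theorem hold_lev_iff (hor : ∀ r r', sat (orR r r') ↔ sat r ∨ sat r') (hff : ¬ sat ff) {k j : ℕ}
    {x : List (List ρ) × List (List Bool)} :
    (∀ r ∈ lev orR ff k j x, sat r) ↔
      ∃ a : List Bool, a.length = k ∧ selj x.2 j a = true ∧ ∀ y ∈ a.zip x.1, y.1 = true →
        ∀ r ∈ y.2, sat r := by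
  unfold lev
  rw [hold_ups hor hff]
  simp only [mem_pats, hold_conj]

/-- The property of the systems that makes pruning possible. -/
theorem lev_step (hor : ∀ r r', sat (orR r r') ↔ sat r ∨ sat r') (hff : ¬ sat ff) {k : ℕ}
    {x : List (List ρ) × List (List Bool)} (hk : x.1.length = k) {j : ℕ}
    (hj : j = 0 ∨ ∀ r ∈ lev orR ff k j x, sat r)
    (hF : pat sat x.1 ∈ x.2 ↔ (j + 1) % 2 = 1) : ∀ r ∈ lev orR ff k (j + 1) x, sat r := by
  rw [hold_lev_iff hor hff]
  refine ⟨pat sat x.1, by rw [length_pat, hk], ?_, pat_holds _⟩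
  rw [hold_lev_iff hor hff] at hj
  unfold selj at hj ⊢
  simp only [Bool.or_eq_true, Bool.and_eq_true, decide_eq_true_eq, Nat.add_sub_cancel] at hj ⊢
  rcases Nat.even_or_odd' j with ⟨w, rfl | rfl⟩
  · -- `j = 2 w`
    have hF' : pat sat x.1 ∈ x.2 := hF.2 (by omega)
    have h1 : w ≤ (pat sat x.1).count true := by
      rcases hj with hj | ⟨a, ha, hsel, hle⟩
      · omega
      · have h2 := (le_pat a x.1 (by rw [ha, hk]) hle).1
        rcases hsel with h3 | h3
        · omega
        · omega
    have e : 2 * w / 2 = w := by omega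
    rw [e]
    by_cases h2 : w + 1 ≤ (pat sat x.1).count true
    · exact Or.inl h2
    · exact Or.inr ⟨by omega, by omega, hF'⟩
  · -- `j = 2 w + 1`
    have hF' : pat sat x.1 ∉ x.2 := fun h => by have := hF.1 h; omega
    rcases hj with hj | ⟨a, ha, hsel, hle⟩
    · omega
    · obtain ⟨h2, h3⟩ := le_pat a x.1 (by rw [ha, hk]) hle
      have e1 : (2 * w + 1 - 1) / 2 = w := by omega
      have e2 : (2 * w + 1) / 2 = w := by omega
      rw [e1] at hsel
      rw [e2]
      left
      rcases hsel with h4 | ⟨_, h4, h5⟩
      · omega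
      · by_contra h6
        have h7 : a = pat sat x.1 := h3 (by omega)
        rw [h7] at h5
        exact hF' h5

theorem lev_last (hor : ∀ r r', sat (orR r r') ↔ sat r ∨ sat r') (hff : ¬ sat ff) {k : ℕ}
    {x : List (List ρ) × List (List Bool)} :
    ¬ ∀ r ∈ lev orR ff k (2 * k + 2) x, sat r := by
  rw [hold_lev_iff hor hff]
  rintro ⟨a, ha, hsel, _⟩
  have h1 := List.count_le_length (a := true) (l := a)
  unfold selj at hsel
  simp only [Bool.or_eq_true, Bool.and_eq_true, decide_eq_true_eq] at hsel
  omega

/-- A bound on the degrees of the conditions of the systems. -/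
theorem lev_class {cls : ℕ → ρ → Prop} (hmono : ∀ d d' r, cls d r → d ≤ d' → cls d' r)
    (hor : ∀ d d' r r', cls d r → cls d' r' → cls (d + d') (orR r r')) (hff : cls 0 ff)
    {k j d : ℕ} {x : List (List ρ) × List (List Bool)} (hx : ∀ s ∈ x.1, ∀ r ∈ s, cls d r) :
    ∀ r ∈ lev orR ff k j x, cls (2 ^ k * d) r := by
  unfold lev
  rw [← length_pats k]
  generalize pats k = as
  induction as with
  | nil =>
    intro r hr
    simp only [ups, List.mem_singleton] at hr
    subst hr
    exact hmono 0 _ _ hff (Nat.zero_le _)
  | cons a as ih =>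
    intro r hr
    unfold ups at hr
    rw [List.length_cons]
    split_ifs at hr with h
    · rw [orS, List.mem_flatMap] at hr
      obtain ⟨r1, hr1, hr⟩ := hr
      rw [List.mem_map] at hr
      obtain ⟨r2, hr2, rfl⟩ := hr
      rw [add_mul, one_mul, add_comm]
      refine hor _ _ _ _ ?_ (ih r2 hr2)
      rw [conj, List.mem_flatMap] at hr1
      obtain ⟨y, hy, hr1⟩ := hr1
      by_cases hy1 : y.1 = true
      · simp only [hy1, if_true] at hr1
        exact hx y.2 (List.of_mem_zip hy).2 r1 hr1
      · simp [hy1] at hr1
    · exact hmono _ _ _ (ih r hr) (Nat.mul_le_mul_right _ (Nat.le_succ _))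

end Levels

end Pool.Agent.J6H27.TT
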