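import Mathlib

/-!
# Pruning a list of candidates with the help of implications between conditions
-/

namespace Pool.Agent.J6H27.TT

section Greedy

variable {ρ : Type} (imp : List ρ → ρ → Bool)

/-- keep a condition unless it is implied -/
def keep (l : List ρ) (r : ρ) : List ρ := if imp l r = true then l else r :: l

/-- the greedy independent sublist -/
def greedy (l : List ρ) : List ρ := l.foldl (keep imp) []

/-- no condition is implied by those added before it -/
def Indep : List ρ → Prop
  | [] => True
  | r :: l => Indep l ∧ imp l r = false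

variable {imp}

theorem keep_cases (l : List ρ) (r : ρ) :
    (keep imp l r = l ∧ imp l r = true) ∨ (keep imp l r = r :: l ∧ imp l r = false) := by
  unfold keep
  cases h : imp l r <;> simp

theorem foldl_keep_suffix (l : List ρ) : ∀ s : List ρ, s <:+ l.foldl (keep imp) s := by
  induction l with
  | nil => intro s; exact List.suffix_rfl
  | cons r l ih =>
    intro s
    refine List.IsSuffix.trans ?_ (ih (keep imp s r))
    rcases keep_cases (imp := imp) s r with h | h
    · rw [h.1]
    · rw [h.1]; exact List.suffix_cons _ _

theorem foldl_keep_of_length (l : List ρ) : ∀ s : List ρ,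
    (l.foldl (keep imp) s).length = s.length →
      l.foldl (keep imp) s = s ∧ ∀ r ∈ l, imp s r = true := by
  induction l with
  | nil => intro s _; simp
  | cons r l ih =>
    intro s hs
    rw [List.foldl_cons] at hs
    rcases keep_cases (imp := imp) s r with h | h
    · rw [h.1] at hs
      obtain ⟨h1, h2⟩ := ih s hs
      rw [List.foldl_cons, h.1]
      refine ⟨h1, fun r' hr' => ?_⟩
      rcases List.mem_cons.1 hr' with rfl | hr'
      · exact h.2
      · exact h2 r' hr'
    · exfalso
      rw [h.1] at hs
      have := (foldl_keep_suffix (imp := imp) l (r :: s)).length_le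
      simp only [List.length_cons] at this
      omega

theorem foldl_keep_indep (l : List ρ) : ∀ s : List ρ, Indep imp s →
    Indep imp (l.foldl (keep imp) s) := by
  induction l with
  | nil => intro s h; exact h
  | cons r l ih =>
    intro s hs
    refine ih _ ?_
    rcases keep_cases (imp := imp) s r with h | h
    · rw [h.1]; exact hs
    · rw [h.1]; exact ⟨hs, h.2⟩

theorem foldl_keep_mem (l : List ρ) : ∀ s : List ρ, ∀ r ∈ l.foldl (keep imp) s,
    r ∈ s ∨ r ∈ l := by
  induction l with
  | nil => intro s r h; exact Or.inl h
  | cons r₀ l ih =>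
    intro s r h
    rw [List.foldl_cons] at h
    rcases ih _ r h with h | h
    · rcases keep_cases (imp := imp) s r₀ with h' | h'
      · rw [h'.1] at h; exact Or.inl h
      · rw [h'.1] at h
        rcases List.mem_cons.1 h with rfl | h
        · exact Or.inr (by simp)
        · exact Or.inl h
    · exact Or.inr (by simp [h])

theorem greedy_indep (l : List ρ) : Indep imp (greedy imp l) := foldl_keep_indep l _ trivial

theorem greedy_mem {l : List ρ} {r : ρ} (h : r ∈ greedy imp l) : r ∈ l := by
  rcases foldl_keep_mem l [] r h with h | h
  · simp at h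
  · exact h

theorem greedy_append (l l' : List ρ) : greedy imp (l ++ l') = l'.foldl (keep imp) (greedy imp l) := by
  unfold greedy
  rw [List.foldl_append]

theorem greedy_length_le (l l' : List ρ) :
    (greedy imp l).length ≤ (greedy imp (l ++ l')).length := by
  rw [greedy_append]
  exact (foldl_keep_suffix l' _).length_le

theorem greedy_of_length {l l' : List ρ}
    (h : (greedy imp (l ++ l')).length = (greedy imp l).length) :
    greedy imp (l ++ l') = greedy imp l ∧ ∀ r ∈ l', imp (greedy imp l) r = true := by
  rw [greedy_append] at h ⊢
  exact foldl_keep_of_length l' _ h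

end Greedy

section Prune

variable {ρ τ : Type} (imp : List ρ → ρ → Bool)

/-- the greedy list of the conditions of the first `i` items of `b` -/
def st (s : τ → List ρ) (b : List τ) (i : ℕ) : List ρ := greedy imp ((b.take i).flatMap s)

/-- the items of `b` that bring a new condition -/
def jumps (s : τ → List ρ) (b : List τ) : List τ :=
  (b.zipIdx.filter (fun y => decide ((st imp s b y.2).length ≠
    (st imp s b (y.2 + 1)).length))).map (fun y => y.1)

/-- the items of `b` that bring no new condition, after `c` conditions have been kept -/
def run (s : τ → List ρ) (b : List τ) (c : ℕ) : List τ :=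
  (b.zipIdx.filter (fun y => decide ((st imp s b y.2).length =
    (st imp s b (y.2 + 1)).length ∧ (st imp s b y.2).length = c))).map (fun y => y.1)

/-- The items that may be the last one with property `F`. -/
def prune (s : ℕ → τ → List ρ) (D : ℕ) : ℕ → ℕ → List τ → List τ
  | 0, _, _ => []
  | n + 1, j, b => jumps imp (s (j + 1)) b ++
      (List.range (D + 1)).flatMap (fun c => prune s D n (j + 1) (run imp (s (j + 1)) b c).reverse)

variable {imp}

theorem st_mono (s : τ → List ρ) (b : List τ) {i k : ℕ} (h : i ≤ k) :
    (st imp s b i).length ≤ (st imp s b k).length := by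
  unfold st
  obtain ⟨e, rfl⟩ := Nat.exists_eq_add_of_le h
  rw [List.take_add, List.flatMap_append]
  exact greedy_length_le _ _

theorem st_eq (s : τ → List ρ) (b : List τ) {i k : ℕ} (h : i ≤ k)
    (hl : (st imp s b k).length = (st imp s b i).length) :
    st imp s b k = st imp s b i := by
  unfold st at hl ⊢
  obtain ⟨e, rfl⟩ := Nat.exists_eq_add_of_le h
  rw [List.take_add, List.flatMap_append] at hl ⊢
  exact (greedy_of_length hl).1

theorem st_imp (s : τ → List ρ) (b : List τ) {i : ℕ} (hi : i < b.length)
    (hl : (st imp s b i).length = (st imp s b (i + 1)).length) :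
    ∀ r ∈ s b[i], imp (st imp s b i) r = true := by
  unfold st at hl ⊢
  rw [List.take_add_one, List.flatMap_append, List.getElem?_eq_getElem hi] at hl
  have := (greedy_of_length hl.symm).2
  intro r hr
  exact this r (by simpa using hr)

/-- number of increments of a monotone function -/
theorem card_increments (g : ℕ → ℕ) (hg : Monotone g) (n : ℕ) :
    ((List.range n).filter (fun i => decide (g i ≠ g (i + 1)))).length ≤ g n := by
  have key : ∀ n, ((List.range n).filter (fun i => decide (g i ≠ g (i + 1)))).length + g 0 ≤ g n := by
    intro n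
    induction n with
    | zero => simp
    | succ n ih =>
      rw [List.range_succ, List.filter_append, List.length_append]
      have h1 := hg (Nat.le_succ n)
      by_cases h : g n = g (n + 1)
      · simp [h] at ih ⊢
        omega
      · simp [h] at ih ⊢
        have : g n < g (n + 1) := lt_of_le_of_ne h1 h
        omega
  have := key n
  omega

theorem zipIdx_filter_length (b : List τ) (p : ℕ → Bool) :
    (b.zipIdx.filter (fun y => p y.2)).length = ((List.range b.length).filter p).length := by
  have h : (List.range b.length) = b.zipIdx.map (fun y => y.2) := by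
    have := List.zipIdx_map_snd 0 b
    rw [List.range_eq_range']
    exact this.symm
  rw [h, List.filter_map, List.length_map]
  rfl

theorem jumps_length_le (s : τ → List ρ) (b : List τ) :
    (jumps imp s b).length ≤ (greedy imp (b.flatMap s)).length := by
  unfold jumps
  rw [List.length_map]
  have h1 := zipIdx_filter_length b (fun i => decide ((st imp s b i).length ≠
    (st imp s b (i + 1)).length))
  rw [h1]
  refine (card_increments (fun i => (st imp s b i).length) (fun i k h => st_mono s b h)
    b.length).trans ?_
  simp [st]

theorem mem_of_mem_jumps {s : τ → List ρ} {b : List τ} {i : τ} (h : i ∈ jumps imp s b) : i ∈ b := by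
  unfold jumps at h
  rw [List.mem_map] at h
  obtain ⟨y, hy, rfl⟩ := h
  exact List.fst_mem_of_mem_zipIdx (List.mem_filter.1 hy).1

theorem mem_of_mem_run {s : τ → List ρ} {b : List τ} {c : ℕ} {i : τ} (h : i ∈ run imp s b c) :
    i ∈ b := by
  unfold run at h
  rw [List.mem_map] at h
  obtain ⟨y, hy, rfl⟩ := h
  exact List.fst_mem_of_mem_zipIdx (List.mem_filter.1 hy).1

theorem prune_length (s : ℕ → τ → List ρ) (D : ℕ) (B : List τ)
    (hD : ∀ (j : ℕ) (b : List τ), (∀ i ∈ b, i ∈ B) →
      (greedy imp (b.flatMap (s j))).length ≤ D) :
    ∀ (n j : ℕ) (b : List τ), (∀ i ∈ b, i ∈ B) →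
      (prune imp s D n j b).length + 1 ≤ (D + 1) ^ n := by
  intro n
  induction n with
  | zero => intro j b _; simp [prune]
  | succ n ih =>
    intro j b hb
    have h1 := (jumps_length_le (imp := imp) (s (j + 1)) b).trans (hD (j + 1) b hb)
    have h2 : ((List.range (D + 1)).flatMap (fun c =>
        prune imp s D n (j + 1) (run imp (s (j + 1)) b c).reverse)).length ≤
        (D + 1) * ((D + 1) ^ n - 1) := by
      rw [List.length_flatMap]
      have := List.sum_le_card_nsmul ((List.range (D + 1)).map (fun c =>
        (prune imp s D n (j + 1) (run imp (s (j + 1)) b c).reverse).length))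
        ((D + 1) ^ n - 1) (by
          intro x hx
          rw [List.mem_map] at hx
          obtain ⟨c, _, rfl⟩ := hx
          have := ih (j + 1) (run imp (s (j + 1)) b c).reverse (fun i hi =>
            hb i (mem_of_mem_run (List.mem_reverse.1 hi)))
          omega)
      simpa using this
    rw [prune, List.length_append, pow_succ]
    have h3 : 1 ≤ (D + 1) ^ n := Nat.one_le_pow _ _ (by omega)
    obtain ⟨e, he⟩ := Nat.exists_eq_add_of_le h3
    rw [he] at h2 ⊢
    have h4 : 1 + e - 1 = e := by omega
    rw [h4] at h2
    have h5 : (1 + e) * (D + 1) = (D + 1) * e + D + 1 := by ring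
    omega

theorem prune_mem (s : ℕ → τ → List ρ) (D : ℕ) : ∀ (n j : ℕ) (b : List τ),
    ∀ i ∈ prune imp s D n j b, i ∈ b := by
  intro n
  induction n with
  | zero => intro j b i hi; simp [prune] at hi
  | succ n ih =>
    intro j b i hi
    rw [prune, List.mem_append, List.mem_flatMap] at hi
    rcases hi with hi | ⟨c, _, hi⟩
    · exact mem_of_mem_jumps hi
    · exact mem_of_mem_run (List.mem_reverse.1 (ih _ _ i hi))

theorem prune_correct {sat R : ρ → Prop} {F : τ → Prop} {s : ℕ → τ → List ρ} {D J : ℕ}
    {B : List τ} (hJ1 : 1 ≤ J)
    (hR : ∀ j, ∀ i ∈ B, ∀ r ∈ s j i, R r)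
    (himp : ∀ l r, Indep imp l → (∀ r' ∈ l, R r') → R r → (∀ r' ∈ l, sat r') →
      imp l r = true → sat r)
    (hP : ∀ j, ∀ i ∈ B, (j = 0 ∨ ∀ r ∈ s j i, sat r) → (F i ↔ (j + 1) % 2 = 1) →
      ∀ r ∈ s (j + 1) i, sat r)
    (hJ : ∀ i ∈ B, ¬ ∀ r ∈ s J i, sat r)
    (hD : ∀ (j : ℕ) (b : List τ), (∀ i ∈ b, i ∈ B) →
      (greedy imp (b.flatMap (s j))).length ≤ D) :
    ∀ (n j : ℕ), n + j = J → ∀ (pre : List τ) (t : τ) (post : List τ),
      (∀ i ∈ pre ++ t :: post, i ∈ B) →
      (∀ i ∈ pre, F i ↔ (j + 1) % 2 = 1) → (∀ i ∈ post, F i ↔ (j + 1) % 2 = 0) → F t →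
      (∀ i ∈ pre ++ t :: post, j = 0 ∨ ∀ r ∈ s j i, sat r) →
      t ∈ prune imp s D n j (pre ++ t :: post) := by
  intro n
  induction n with
  | zero =>
    intro j hj pre t post hB _ _ _ hs
    exfalso
    have h1 := hs t (by simp)
    rcases h1 with h1 | h1
    · omega
    · refine hJ t (hB t (by simp)) ?_
      have : j = J := by omega
      rwa [← this]
  | succ n ih =>
    intro j hj pre t post hB hpre hpost hF hs
    rw [prune, List.mem_append]
    set b := pre ++ t :: post with hb
    have hlen : pre.length < b.length := by rw [hb]; simp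
    have hzip : b.zipIdx = pre.zipIdx ++ (t, pre.length) :: post.zipIdx (pre.length + 1) := by
      rw [hb, List.zipIdx_append, List.zipIdx_cons]
      simp
    -- the conditions kept before `t` are satisfied
    have hst : ∀ r ∈ st imp (s (j + 1)) b pre.length, sat r := by
      intro r hr
      have h1 := greedy_mem hr
      rw [List.mem_flatMap] at h1
      obtain ⟨i, hi, hr⟩ := h1
      have h2 : i ∈ pre := by
        rw [hb, List.take_left'] at hi
        · exact hi
        · rfl
      have h3 : i ∈ b := by rw [hb]; simp [h2]
      exact hP j i (hB i h3) (hs i h3) (hpre i h2) r hr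
    have hstR : ∀ k, ∀ r ∈ st imp (s (j + 1)) b k, R r := by
      intro k r hr
      have h1 := greedy_mem hr
      rw [List.mem_flatMap] at h1
      obtain ⟨i, hi, hr⟩ := h1
      exact hR _ i (hB i (List.mem_of_mem_take hi)) r hr
    by_cases hjump : (st imp (s (j + 1)) b pre.length).length =
        (st imp (s (j + 1)) b (pre.length + 1)).length
    · right
      rw [List.mem_flatMap]
      set c := (st imp (s (j + 1)) b pre.length).length with hc
      have hcD : c ≤ D := by
        have h1 := hD (j + 1) (b.take pre.length) (fun i hi => hB i (List.mem_of_mem_take hi))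
        exact h1
      refine ⟨c, List.mem_range.2 (by omega), ?_⟩
      -- all items of the run satisfy their conditions
      have hrun : ∀ i ∈ run imp (s (j + 1)) b c, ∀ r ∈ s (j + 1) i, sat r := by
        intro i hi r hr
        unfold run at hi
        rw [List.mem_map] at hi
        obtain ⟨⟨i', k⟩, hy, rfl⟩ := hi
        rw [List.mem_filter] at hy
        obtain ⟨hy1, hy2⟩ := hy
        simp only [decide_eq_true_eq] at hy2
        rw [List.mem_zipIdx_iff_getElem?] at hy1
        obtain ⟨hk, hik⟩ := List.getElem?_eq_some_iff.1 hy1
        simp only at hk hik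
        have h1 : st imp (s (j + 1)) b k = st imp (s (j + 1)) b pre.length := by
          rcases le_total k pre.length with h | h
          · exact (st_eq _ _ h (by rw [hy2.2])).symm
          · exact st_eq _ _ h (by rw [hy2.2])
        have h2 := st_imp (imp := imp) (s (j + 1)) b hk hy2.1
        rw [hik, h1] at h2
        simp only at hr
        exact himp _ r (greedy_indep _) (hstR _) (hR _ i' (hB i' (by rw [← hik]; simp)) r hr) hst
          (h2 r hr)
      -- decomposition of the run
      have hdec : (run imp (s (j + 1)) b c).reverse =
          (((post.zipIdx (pre.length + 1)).filter (fun y =>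
            decide ((st imp (s (j + 1)) b y.2).length = (st imp (s (j + 1)) b (y.2 + 1)).length ∧
              (st imp (s (j + 1)) b y.2).length = c))).map (fun y => y.1)).reverse ++ t ::
          ((pre.zipIdx.filter (fun y =>
            decide ((st imp (s (j + 1)) b y.2).length = (st imp (s (j + 1)) b (y.2 + 1)).length ∧
              (st imp (s (j + 1)) b y.2).length = c))).map (fun y => y.1)).reverse := by
        have e : run imp (s (j + 1)) b c = (pre.zipIdx.filter (fun y =>
            decide ((st imp (s (j + 1)) b y.2).length = (st imp (s (j + 1)) b (y.2 + 1)).length ∧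
              (st imp (s (j + 1)) b y.2).length = c))).map (fun y => y.1) ++ t ::
            ((post.zipIdx (pre.length + 1)).filter (fun y =>
            decide ((st imp (s (j + 1)) b y.2).length = (st imp (s (j + 1)) b (y.2 + 1)).length ∧
              (st imp (s (j + 1)) b y.2).length = c))).map (fun y => y.1) := by
          unfold run
          rw [hzip, List.filter_append, List.filter_cons_of_pos]
          · simp
          · simp only [decide_eq_true_eq]
            exact ⟨hjump, rfl⟩
        rw [e, List.reverse_append, List.reverse_cons]
        simp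
      have hmem : ∀ i ∈ (run imp (s (j + 1)) b c).reverse, i ∈ b := fun i hi =>
        mem_of_mem_run (List.mem_reverse.1 hi)
      have hsat : ∀ i ∈ (run imp (s (j + 1)) b c).reverse,
          j + 1 = 0 ∨ ∀ r ∈ s (j + 1) i, sat r := fun i hi =>
        Or.inr (hrun i (List.mem_reverse.1 hi))
      rw [hdec] at hmem hsat ⊢
      refine ih (j + 1) (by omega) _ t _ (fun i hi => hB i (hmem i hi)) ?_ ?_ hF hsat
      · intro i hi
        rw [List.mem_reverse, List.mem_map] at hi
        obtain ⟨y, hy, rfl⟩ := hi
        have := hpost y.1 (List.fst_mem_of_mem_zipIdx (List.mem_filter.1 hy).1)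
        rw [this]
        omega
      · intro i hi
        rw [List.mem_reverse, List.mem_map] at hi
        obtain ⟨y, hy, rfl⟩ := hi
        have := hpre y.1 (List.fst_mem_of_mem_zipIdx (List.mem_filter.1 hy).1)
        rw [this]
        omega
    · left
      unfold jumps
      rw [List.mem_map]
      refine ⟨(t, pre.length), ?_, rfl⟩
      rw [List.mem_filter]
      refine ⟨by rw [hzip]; simp, ?_⟩
      simpa using hjump

end Prune

end Pool.Agent.J6H27.TT
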