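import Pool.Agent.H660R2.NX.Run
import Pool.Agent.H695R2.IsoImp.Member
import Pool.Agent.J6H27.TT.Prune
import Pool.Agent.J6H27.TT.Levels

/-!
# Conditions on a hidden world, and pruning in polynomial time
-/

namespace Pool.Agent.J6H27.TT

open Pool.Agent.NPC

/-- A kind of conditions on a fixed hidden world, which is closed under disjunction, with a sound
polynomial-time notion of implication for which independent lists are short. -/
structure Cond (ρ : Type) [TEnc ρ] where
  sat : ρ → Prop
  orR : ρ → ρ → ρ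
  ff : ρ
  cls : ℕ → ℕ → ρ → Prop
  imp : ℕ → List Unit → List ρ → ρ → Bool
  bnd : ℕ → Polynomial ℕ
  poly_or : Poly (fun x : ρ × ρ => orR x.1 x.2)
  poly_imp : ∀ d, Poly (fun x : List Unit × List ρ × ρ => imp d x.1 x.2.1 x.2.2)
  sat_or : ∀ r r', sat (orR r r') ↔ sat r ∨ sat r'
  sat_ff : ¬ sat ff
  cls_or : ∀ m d d' r r', cls m d r → cls m d' r' → cls m (d + d') (orR r r')
  cls_ff : ∀ m, cls m 0 ff
  cls_mono : ∀ m m' d d' r, cls m d r → m ≤ m' → d ≤ d' → cls m' d' r
  imp_sound : ∀ d m l r, (∀ r' ∈ l, cls m d r') → cls m d r → (∀ r' ∈ l, sat r') →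
    imp d (List.replicate m ()) l r = true → sat r
  imp_bound : ∀ d m l, Indep (imp d (List.replicate m ())) l → (∀ r' ∈ l, cls m d r') →
    l.length ≤ (bnd d).eval m

section

variable {α β γ : Type} [TEnc α] [TEnc β] [TEnc γ]

@[fun_prop]
theorem poly_take {l : α → List β} {n : α → ℕ} (hl : Poly l) (hn : Poly n) :
    Poly (fun a => (l a).take (n a)) := by
  refine ((NPC.Poly.map (F := fun _ (y : β × ℕ) => y.1)
    (NPC.Poly.filter (p := fun (x : α) (y : β × ℕ) => decide (y.2 < n x)) (Poly.zipIdx hl)
      ?_) ?_)).congr ?_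
  · fun_prop
  · fun_prop
  · intro x
    generalize n x = n
    generalize l x = l
    have key : ∀ (l : List β) (k n : ℕ), ((l.zipIdx k).filter
        (fun y => decide (y.2 < n))).map (fun y => y.1) = l.take (n - k) := by
      intro l
      induction l with
      | nil => intro k n; simp
      | cons b l ih =>
        intro k n
        rw [List.zipIdx_cons, List.filter_cons]
        by_cases h : k < n
        · have e : n - k = (n - (k + 1)) + 1 := by omega
          rw [e, List.take_succ_cons]
          simp [h, ih]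
        · have e : n - k = 0 := by omega
          have e' : n - (k + 1) = 0 := by omega
          rw [e, List.take_zero]
          have := ih (k + 1) n
          rw [e', List.take_zero] at this
          simpa [h] using this
    have := key l 0 n
    simpa using this

@[fun_prop]
theorem poly_count_true {l : α → List Bool} (hl : Poly l) : Poly (fun a => (l a).count true) := by
  have h : Poly (fun a => ((l a).filter (fun b => b)).length) := by
    fun_prop
  refine h.congr fun a => ?_
  rw [List.count_eq_length_filter]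
  congr 1
  apply List.filter_congr
  intro x _
  cases x <;> rfl

end

section

variable {ρ : Type} [TEnc ρ] (𝒞 : Cond ρ)

section

variable {α : Type} [TEnc α]

theorem poly_orS {s s' : α → List ρ} (hs : Poly s) (hs' : Poly s') :
    Poly (fun a => orS 𝒞.orR (s a) (s' a)) := by
  unfold orS
  refine Poly.flatMap (F := fun a r => (s' a).map (fun r' => 𝒞.orR r r')) hs ?_
  refine NPC.Poly.map (F := fun (x : α × ρ) r' => 𝒞.orR x.2 r') (hs'.comp (Poly.fst Poly.id)) ?_
  exact 𝒞.poly_or.comp (Poly.pair (Poly.snd (Poly.fst Poly.id)) (Poly.snd Poly.id))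

theorem poly_conj (a : List Bool) {Z : α → List (List ρ)} (hZ : Poly Z) :
    Poly (fun x => conj a (Z x)) := by
  unfold conj
  refine Poly.flatMap (F := fun _ (y : Bool × List ρ) => if y.1 = true then y.2 else [])
    (Poly.zip (NPC.Poly.const a) hZ) ?_
  fun_prop

theorem poly_lev (k j : ℕ) {x : α → List (List ρ) × List (List Bool)} (hx : Poly x) :
    Poly (fun a => lev 𝒞.orR 𝒞.ff k j (x a)) := by
  unfold lev
  generalize pats k = as
  induction as with
  | nil => exact NPC.Poly.const _
  | cons b as ih =>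
    unfold ups
    have hsel : Poly (fun a => selj (x a).2 j b) := by
      unfold selj
      refine Poly.or (NPC.Poly.const _) (Poly.and (NPC.Poly.const _) (Poly.and (NPC.Poly.const _) ?_))
      exact Poly.dec_mem (NPC.Poly.const _) (Poly.snd hx)
    exact Poly.ite (p := fun a => selj (x a).2 j b = true) (Poly.decide_bool hsel)
      (poly_orS 𝒞 (poly_conj b (Poly.fst hx)) ih) ih

theorem poly_greedy (d : ℕ) {m : α → List Unit} {l : α → List ρ} (hm : Poly m) (hl : Poly l) :
    Poly (fun a => greedy (𝒞.imp d (m a)) (l a)) := by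
  obtain ⟨r, hr⟩ := hl.sz_le
  have key : ∀ (im : List ρ → ρ → Bool) (l s : List ρ),
      sz (l.foldl (keep im) s) + 1 ≤ sz l + sz s := by
    intro im l
    induction l with
    | nil => intro s; simp [add_comm]
    | cons b l ih =>
      intro s
      rw [List.foldl_cons]
      have h1 := ih (keep im s b)
      rw [sz_list_cons]
      rcases keep_cases (imp := im) s b with h | h
      · rw [h.1] at h1 ⊢
        have := sz_pos b
        omega
      · rw [h.1] at h1 ⊢; rw [sz_list_cons] at h1; omega
  unfold greedy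
  refine Poly.foldl (F := fun a s b => keep (𝒞.imp d (m a)) s b) hl (NPC.Poly.const _) ?_ (r + 1) ?_
  · unfold keep
    have h1 : Poly (fun p : α × List ρ × ρ => 𝒞.imp d (m p.1) p.2.1 p.2.2) :=
      (𝒞.poly_imp d).comp (f := fun p : α × List ρ × ρ => (m p.1, p.2.1, p.2.2))
        (Poly.pair (hm.comp (Poly.fst Poly.id)) (Poly.pair (Poly.fst (Poly.snd Poly.id))
          (Poly.snd (Poly.snd Poly.id))))
    exact Poly.ite (p := fun p : α × List ρ × ρ => 𝒞.imp d (m p.1) p.2.1 p.2.2 = true)
      (Poly.decide_bool h1) (by fun_prop) (by fun_prop)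
  · intro a k _
    have h1 := key (𝒞.imp d (m a)) ((l a).take k) []
    have h2 := Poly.sz_take_le (l a) k
    have h3 := hr a
    simp only [sz_list_nil, Polynomial.eval_add, Polynomial.eval_one] at h1 ⊢
    change sz (((l a).take k).foldl (keep (𝒞.imp d (m a))) []) ≤ _
    omega

end

variable {τ : Type} [TEnc τ] {s : ℕ → τ → List ρ} (hs : ∀ j, Poly (s j)) (d : ℕ)

include hs

theorem poly_st (j : ℕ) : Poly (fun x : List Unit × List τ × ℕ =>
    st (𝒞.imp d x.1) (s j) x.2.1 x.2.2) := by
  unfold st
  refine poly_greedy 𝒞 d (Poly.fst Poly.id) (Poly.flatMap (F := fun _ i => s j i) (by fun_prop) ?_)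
  exact (hs j).comp (Poly.snd Poly.id)

theorem poly_jumps (j : ℕ) : Poly (fun x : List Unit × List τ =>
    jumps (𝒞.imp d x.1) (s j) x.2) := by
  unfold jumps
  have h1 : Poly (fun x : (List Unit × List τ) × (τ × ℕ) =>
      st (𝒞.imp d x.1.1) (s j) x.1.2 x.2.2) :=
    (poly_st 𝒞 hs d j).comp (f := fun x : (List Unit × List τ) × (τ × ℕ) =>
      (x.1.1, x.1.2, x.2.2)) (by fun_prop)
  have h2 : Poly (fun x : (List Unit × List τ) × (τ × ℕ) =>
      st (𝒞.imp d x.1.1) (s j) x.1.2 (x.2.2 + 1)) :=
    (poly_st 𝒞 hs d j).comp (f := fun x : (List Unit × List τ) × (τ × ℕ) =>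
      (x.1.1, x.1.2, x.2.2 + 1)) (by fun_prop)
  fun_prop

theorem poly_run (j : ℕ) : Poly (fun x : List Unit × List τ × ℕ =>
    run (𝒞.imp d x.1) (s j) x.2.1 x.2.2) := by
  unfold run
  have h1 : Poly (fun x : (List Unit × List τ × ℕ) × (τ × ℕ) =>
      st (𝒞.imp d x.1.1) (s j) x.1.2.1 x.2.2) :=
    (poly_st 𝒞 hs d j).comp (f := fun x : (List Unit × List τ × ℕ) × (τ × ℕ) =>
      (x.1.1, x.1.2.1, x.2.2)) (by fun_prop)
  have h2 : Poly (fun x : (List Unit × List τ × ℕ) × (τ × ℕ) =>
      st (𝒞.imp d x.1.1) (s j) x.1.2.1 (x.2.2 + 1)) :=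
    (poly_st 𝒞 hs d j).comp (f := fun x : (List Unit × List τ × ℕ) × (τ × ℕ) =>
      (x.1.1, x.1.2.1, x.2.2 + 1)) (by fun_prop)
  fun_prop

theorem poly_prune (n j : ℕ) : Poly (fun x : List Unit × List Unit × List τ =>
    prune (𝒞.imp d x.1) s x.2.1.length n j x.2.2) := by
  induction n generalizing j with
  | zero => unfold prune; exact NPC.Poly.const _
  | succ n ih =>
    unfold prune
    refine Poly.append ?_ ?_
    · exact (poly_jumps 𝒞 hs d (j + 1)).comp (f := fun x : List Unit × List Unit × List τ =>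
        (x.1, x.2.2)) (by fun_prop)
    · refine Poly.flatMap (F := fun (x : List Unit × List Unit × List τ) (c : ℕ) =>
        prune (𝒞.imp d x.1) s x.2.1.length n (j + 1)
          (run (𝒞.imp d x.1) (s (j + 1)) x.2.2 c).reverse) ?_ ?_
      · have : UPoly (fun x : List Unit × List Unit × List τ => x.2.1.length + 1) :=
          UPoly.add (UPoly.length (Poly.fst (Poly.snd Poly.id))) (UPoly.const 1)
        exact this.range
      · have h1 : Poly (fun x : (List Unit × List Unit × List τ) × ℕ =>
            run (𝒞.imp d x.1.1) (s (j + 1)) x.1.2.2 x.2) :=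
          (poly_run 𝒞 hs d (j + 1)).comp (f := fun x : (List Unit × List Unit × List τ) × ℕ =>
            (x.1.1, x.1.2.2, x.2)) (by fun_prop)
        exact (ih (j + 1)).comp (f := fun x : (List Unit × List Unit × List τ) × ℕ =>
          (x.1.1, x.1.2.1, (run (𝒞.imp d x.1.1) (s (j + 1)) x.1.2.2 x.2).reverse)) (by fun_prop)

end

end Pool.Agent.J6H27.TT
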