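import Pool.Agent.NPC.Classes

/-!
# Truth-table reductions to tally sets with algebraic evaluation
-/

namespace Pool.Agent.J6H27.TT

open Pool.Agent.NPC

/-- A polynomial with coefficients in `ℕ` in the truth values of queries: the list of the terms
`c · [q₁ ∈ T] ⋯ [q_r ∈ T]`, where `c` is a number and `q₁, …, q_r` are strings. -/
abbrev QPoly := List (ℕ × List (List Bool))

open Classical in
/-- The product `[q₁ ∈ T] ⋯ [q_r ∈ T]`: it is `1` if all these strings are in `T` and `0`
otherwise. -/
noncomputable def answers (T : Set (List Bool)) (μ : List (List Bool)) : ℕ :=
  (μ.map (fun q => if q ∈ T then 1 else 0)).prod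

/-- The value of a polynomial, given the oracle `T`. -/
noncomputable def value (T : Set (List Bool)) (P : QPoly) : ℕ :=
  (P.map (fun t => t.1 * answers T t.2)).sum

/-- An equation between two polynomials. -/
abbrev QEqn := QPoly × QPoly

/-- The two sides of the equation have the same value modulo `p`, given the oracle `T`. If `p = 0`
this means that they are equal. -/
def Holds (p : ℕ) (T : Set (List Bool)) (e : QEqn) : Prop := value T e.1 ≡ value T e.2 [MOD p]

/-- All terms of the equation have degree at most `d`. -/
def DegLE (d : ℕ) (e : QEqn) : Prop := ∀ t ∈ e.1 ++ e.2, t.2.length ≤ d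

open Classical in
/-- `A` reduces to `T` by a polynomial-time truth-table reduction whose evaluator is a Boolean
combination of `k` systems of equations: from `x` one computes in polynomial time systems
`S₁, …, S_k` of polynomial equations of degree at most `d` modulo `p` in truth values of queries,
and a list of `0-1` vectors, such that `x ∈ A` if and only if the vector of the truth values of
the statements that all equations of `Sᵢ` hold for `T` is in the list. -/
def AlgReduces (p d k : ℕ) (A T : Set (List Bool)) : Prop :=
  ∃ (f : List Bool → List (List QEqn) × List (List Bool)),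
    PolyTime (fun x => bits (f x)) ∧ ∀ x,
      (f x).1.length = k ∧ (∀ S ∈ (f x).1, ∀ e ∈ S, DegLE d e) ∧
      (x ∈ A ↔ (f x).1.map (fun S => decide (∀ e ∈ S, Holds p T e)) ∈ (f x).2)

/-- A tally set is a set of strings of the form `00…0`. -/
def Tally (T : Set (List Bool)) : Prop := ∀ x ∈ T, ∃ n : ℕ, x = List.replicate n false

end Pool.Agent.J6H27.TT
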