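import Mathlib
import Pool.Agent.J6H27.TT.Prune

/-!
# Gaussian elimination modulo a prime
-/

namespace Pool.Agent.J6H27.TT

/-- One step of the reduction of the row `r` modulo `ℓ + 1` by the row `b.2` with pivot `b.1`. -/
def red1 (ℓ : ℕ) (b : ℕ × List ℕ) (r : List ℕ) : List ℕ :=
  List.zipWith (fun x y => (b.2.getD b.1 0 * x + (ℓ + 1 - r.getD b.1 0 % (ℓ + 1)) * y) % (ℓ + 1))
    r b.2

/-- The reduction of `r` by all rows of `B`. -/
def redAll (ℓ : ℕ) (B : List (ℕ × List ℕ)) (r : List ℕ) : List ℕ :=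
  B.foldl (fun r b => red1 ℓ b r) r

/-- all entries are zero -/
def isZero (r : List ℕ) : Bool := r.all (fun x => decide (x = 0))

/-- the position of the first nonzero entry -/
def pivot (r : List ℕ) : ℕ :=
  ((r.zipIdx.filter (fun y => decide (y.1 ≠ 0))).map (fun y => y.2)).head?.getD 0

/-- add a row to a basis -/
def addRow (ℓ : ℕ) (B : List (ℕ × List ℕ)) (r : List ℕ) : List (ℕ × List ℕ) :=
  if isZero (redAll ℓ B r) = true then B else B ++ [(pivot (redAll ℓ B r), redAll ℓ B r)]

/-- the basis of a list of rows -/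
def basis (ℓ : ℕ) (l : List (List ℕ)) : List (ℕ × List ℕ) := l.foldr (fun r B => addRow ℓ B r) []

section

variable {ℓ N : ℕ}

theorem length_red1 {b : ℕ × List ℕ} {r : List ℕ} (hb : b.2.length = N) (hr : r.length = N) :
    (red1 ℓ b r).length = N := by
  simp [red1, hb, hr]

theorem getD_red1 {b : ℕ × List ℕ} {r : List ℕ} (hb : b.2.length = N) (hr : r.length = N) (i : ℕ) :
    (red1 ℓ b r).getD i 0 = (b.2.getD b.1 0 * r.getD i 0 +
      (ℓ + 1 - r.getD b.1 0 % (ℓ + 1)) * b.2.getD i 0) % (ℓ + 1) := by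
  unfold red1
  by_cases hi : i < N
  · have e1 : r.getD i 0 = r[i]'(by omega) := List.getD_eq_getElem _ _ (by omega)
    have e2 : b.2.getD i 0 = b.2[i]'(by omega) := List.getD_eq_getElem _ _ (by omega)
    rw [List.getD_eq_getElem _ _ (by simp [hb, hr, hi]), List.getElem_zipWith, e1, e2]
  · have e1 : r.getD i 0 = 0 := List.getD_eq_default _ _ (by omega)
    have e2 : b.2.getD i 0 = 0 := List.getD_eq_default _ _ (by omega)
    rw [List.getD_eq_default _ _ (by simp [hb, hr]; omega), e1, e2]
    simp

/-- the entries are reduced -/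
def Small (ℓ : ℕ) (r : List ℕ) : Prop := ∀ x ∈ r, x < ℓ + 1

theorem small_red1 (b : ℕ × List ℕ) (r : List ℕ) : Small ℓ (red1 ℓ b r) := by
  intro x hx
  unfold red1 at hx
  rw [List.mem_iff_getElem] at hx
  obtain ⟨i, hi, rfl⟩ := hx
  rw [List.getElem_zipWith]
  exact Nat.mod_lt _ (Nat.succ_pos _)

theorem length_redAll : ∀ (B : List (ℕ × List ℕ)) (r : List ℕ), (∀ b ∈ B, b.2.length = N) →
    r.length = N → (redAll ℓ B r).length = N := by
  intro B
  induction B with
  | nil => intro r _ hr; exact hr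
  | cons b B ih =>
    intro r hB hr
    exact ih _ (fun b' hb' => hB b' (by simp [hb'])) (length_red1 (hB b (by simp)) hr)

theorem small_redAll : ∀ (B : List (ℕ × List ℕ)) (r : List ℕ), Small ℓ r →
    Small ℓ (redAll ℓ B r) := by
  intro B
  induction B with
  | nil => intro r hr; exact hr
  | cons b B ih => intro r _; exact ih _ (small_red1 _ _)

/-- The basis is in echelon form. -/
structure Ech (ℓ N : ℕ) (B : List (ℕ × List ℕ)) : Prop where
  len : ∀ b ∈ B, b.2.length = N
  small : ∀ b ∈ B, Small ℓ b.2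
  piv : ∀ b ∈ B, b.2.getD b.1 0 ≠ 0
  ech : B.Pairwise (fun b b' => b'.2.getD b.1 0 = 0)

theorem redAll_append (B : List (ℕ × List ℕ)) (b : ℕ × List ℕ) (r : List ℕ) :
    redAll ℓ (B ++ [b]) r = red1 ℓ b (redAll ℓ B r) := by
  simp [redAll]

theorem redAll_pivot : ∀ (B : List (ℕ × List ℕ)) (r : List ℕ), Ech ℓ N B → r.length = N →
    ∀ b ∈ B, (redAll ℓ B r).getD b.1 0 = 0 := by
  intro B
  induction B using List.reverseRecOn with
  | nil => intro r _ _ b hb; simp at hb
  | append_singleton B b ih =>
    intro r hE hr b' hb'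
    have hE' : Ech ℓ N B := ⟨fun b hb => hE.len b (by simp [hb]), fun b hb => hE.small b (by simp [hb]),
      fun b hb => hE.piv b (by simp [hb]), (List.pairwise_append.1 hE.ech).1⟩
    have hlen := length_redAll (ℓ := ℓ) B r hE'.len hr
    rw [redAll_append, getD_red1 (hE.len b (by simp)) hlen]
    rcases List.mem_append.1 hb' with h | h
    · rw [ih r hE' hr b' h, (List.pairwise_append.1 hE.ech).2.2 b' h b (by simp)]
      simp
    · rw [List.mem_singleton] at h
      subst h
      set x := (redAll ℓ B r).getD b'.1 0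
      set y := b'.2.getD b'.1 0
      have e : y * x + (ℓ + 1 - x % (ℓ + 1)) * y = (ℓ + 1) * (y * (x / (ℓ + 1) + 1)) := by
        have h1 := Nat.div_add_mod x (ℓ + 1)
        have h2 : x % (ℓ + 1) < ℓ + 1 := Nat.mod_lt _ (Nat.succ_pos _)
        generalize x / (ℓ + 1) = q at h1 ⊢
        generalize x % (ℓ + 1) = m at h1 h2 ⊢
        obtain ⟨k, hk⟩ := Nat.exists_eq_add_of_lt h2
        have h3 : ℓ + 1 - m = k + 1 := by omega
        rw [h3, ← h1, hk]
        ring
      rw [e, Nat.mul_mod_right]

theorem pivot_spec {r : List ℕ} (h : isZero r ≠ true) : r.getD (pivot r) 0 ≠ 0 := by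
  unfold pivot
  cases hl : (r.zipIdx.filter (fun y => decide (y.1 ≠ 0))) with
  | nil =>
    exfalso
    apply h
    unfold isZero
    rw [List.all_eq_true]
    intro x hx
    rw [List.filter_eq_nil_iff] at hl
    obtain ⟨i, hi, rfl⟩ := List.mem_iff_getElem.1 hx
    have := hl (r[i], i) (List.mem_zipIdx_iff_getElem?.2 (by simp))
    simpa using this
  | cons y l =>
    have hy : y ∈ r.zipIdx.filter (fun y => decide (y.1 ≠ 0)) := by rw [hl]; simp
    rw [List.mem_filter] at hy
    obtain ⟨h1, h2⟩ := hy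
    rw [List.mem_zipIdx_iff_getElem?] at h1
    obtain ⟨h3, h4⟩ := List.getElem?_eq_some_iff.1 h1
    simp only [List.map_cons, List.head?_cons, Option.getD_some]
    rw [List.getD_eq_getElem _ _ h3, h4]
    simpa using h2

theorem ech_addRow {B : List (ℕ × List ℕ)} {r : List ℕ} (hE : Ech ℓ N B) (hr : r.length = N)
    (hs : Small ℓ r) : Ech ℓ N (addRow ℓ B r) := by
  unfold addRow
  split_ifs with h
  · exact hE
  · refine ⟨?_, ?_, ?_, ?_⟩
    · intro b hb
      rcases List.mem_append.1 hb with hb | hb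
      · exact hE.len b hb
      · rw [List.mem_singleton] at hb
        subst hb
        exact length_redAll B r hE.len hr
    · intro b hb
      rcases List.mem_append.1 hb with hb | hb
      · exact hE.small b hb
      · rw [List.mem_singleton] at hb
        subst hb
        exact small_redAll B r hs
    · intro b hb
      rcases List.mem_append.1 hb with hb | hb
      · exact hE.piv b hb
      · rw [List.mem_singleton] at hb
        subst hb
        exact pivot_spec h
    · rw [List.pairwise_append]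
      refine ⟨hE.ech, List.pairwise_singleton _ _, ?_⟩
      intro b hb b' hb'
      rw [List.mem_singleton] at hb'
      subst hb'
      exact redAll_pivot B r hE hr b hb

theorem ech_basis {l : List (List ℕ)} (hl : ∀ r ∈ l, r.length = N) (hs : ∀ r ∈ l, Small ℓ r) :
    Ech ℓ N (basis ℓ l) := by
  induction l with
  | nil => exact ⟨by simp [basis], by simp [basis], by simp [basis], by simp [basis]⟩
  | cons r l ih =>
    exact ech_addRow (ih (fun r hr => hl r (by simp [hr])) (fun r hr => hs r (by simp [hr])))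
      (hl r (by simp)) (hs r (by simp))

theorem Ech.length_le {B : List (ℕ × List ℕ)} (hE : Ech ℓ N B) : B.length ≤ N := by
  have h1 : (B.map (fun b => b.1)).Nodup := by
    rw [List.Nodup, List.pairwise_map]
    have h2 : B.Pairwise (fun b b' => b' ∈ B ∧ b'.2.getD b.1 0 = 0) := by
      rw [List.pairwise_iff_getElem]
      intro i j hi hj hij
      exact ⟨List.getElem_mem _, List.pairwise_iff_getElem.1 hE.ech i j hi hj hij⟩
    refine h2.imp (fun {b b'} h => ?_)
    intro e
    rw [e] at h
    exact hE.piv b' h.1 h.2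
  have h2 : (B.map (fun b => b.1)) ⊆ List.range N := by
    intro i hi
    rw [List.mem_map] at hi
    obtain ⟨b, hb, rfl⟩ := hi
    rw [List.mem_range]
    by_contra h
    exact hE.piv b hb (List.getD_eq_default _ _ (by rw [hE.len b hb]; omega))
  have h3 := (h1.subperm h2).length_le
  simpa using h3

theorem length_addRow {B : List (ℕ × List ℕ)} {r : List ℕ} :
    B.length ≤ (addRow ℓ B r).length ∧
      (isZero (redAll ℓ B r) = false → (addRow ℓ B r).length = B.length + 1) := by
  unfold addRow
  split_ifs with h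
  · exact ⟨le_rfl, fun h' => by rw [h'] at h; simp at h⟩
  · exact ⟨by simp, fun _ => by simp⟩

end

section Dot

variable {ℓ N : ℕ} (v : List (ZMod (ℓ + 1)))

/-- the value of a row at the vector `v` -/
def dot (r : List ℕ) : ZMod (ℓ + 1) :=
  (List.zipWith (fun (x : ZMod (ℓ + 1)) (y : ℕ) => x * (y : ZMod (ℓ + 1))) v r).sum

theorem dot_comb (a c : ZMod (ℓ + 1)) (g : ℕ → ℕ → ℕ)
    (hg : ∀ x y, ((g x y : ℕ) : ZMod (ℓ + 1)) = a * x + c * y) :
    ∀ (v : List (ZMod (ℓ + 1))) (r b : List ℕ), r.length = b.length →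
      dot v (List.zipWith g r b) = a * dot v r + c * dot v b := by
  intro v r b hrb
  unfold dot
  induction v generalizing r b with
  | nil => simp
  | cons z v ih =>
    cases r with
    | nil =>
      have : b = [] := List.eq_nil_of_length_eq_zero (by simpa using hrb.symm)
      subst this
      simp
    | cons x r =>
      cases b with
      | nil => simp at hrb
      | cons y b =>
        simp only [List.zipWith_cons_cons, List.sum_cons]
        rw [ih r b (by simpa using hrb), hg]
        ring

theorem dot_red1 {b : ℕ × List ℕ} {r : List ℕ} (h : r.length = b.2.length) :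
    dot v (red1 ℓ b r) = ((b.2.getD b.1 0 : ℕ) : ZMod (ℓ + 1)) * dot v r -
      ((r.getD b.1 0 : ℕ) : ZMod (ℓ + 1)) * dot v b.2 := by
  unfold red1
  rw [dot_comb ((b.2.getD b.1 0 : ℕ) : ZMod (ℓ + 1)) (-((r.getD b.1 0 : ℕ) : ZMod (ℓ + 1)))]
  · ring
  · intro x y
    have e1 : ((ℓ + 1 - r.getD b.1 0 % (ℓ + 1) : ℕ) : ZMod (ℓ + 1)) =
        -((r.getD b.1 0 : ℕ) : ZMod (ℓ + 1)) := by
      have h1 : r.getD b.1 0 % (ℓ + 1) ≤ ℓ + 1 := (Nat.mod_lt _ (Nat.succ_pos _)).le
      rw [Nat.cast_sub h1, ZMod.natCast_mod, ZMod.natCast_self, zero_sub]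
    rw [ZMod.natCast_mod, Nat.cast_add, Nat.cast_mul, Nat.cast_mul, e1]
  · exact h

theorem dot_eq_zero_of_isZero {r : List ℕ} (h : isZero r = true) : dot v r = 0 := by
  unfold dot
  unfold isZero at h
  rw [List.all_eq_true] at h
  induction v generalizing r with
  | nil => simp
  | cons z v ih =>
    cases r with
    | nil => simp
    | cons x r =>
      have hx : x = 0 := by simpa using h x (by simp)
      simp only [List.zipWith_cons_cons, List.sum_cons, hx, Nat.cast_zero, mul_zero, zero_add]
      exact ih (fun y hy => h y (by simp [hy]))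

theorem cast_ne_zero {x : ℕ} (h0 : x ≠ 0) (h1 : x < ℓ + 1) : (x : ZMod (ℓ + 1)) ≠ 0 := by
  intro h
  rw [ZMod.natCast_eq_zero_iff] at h
  exact h0 (Nat.eq_zero_of_dvd_of_lt h h1)

theorem getD_small {r : List ℕ} (h : Small ℓ r) (i : ℕ) : r.getD i 0 < ℓ + 1 := by
  by_cases hi : i < r.length
  · rw [List.getD_eq_getElem _ _ hi]
    exact h _ (List.getElem_mem _)
  · rw [List.getD_eq_default _ _ (by omega)]
    exact Nat.succ_pos _

variable [Fact (ℓ + 1).Prime]

theorem dot_of_redAll : ∀ (B : List (ℕ × List ℕ)) (r : List ℕ), Ech ℓ N B → r.length = N →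
    (∀ b ∈ B, dot v b.2 = 0) → dot v (redAll ℓ B r) = 0 → dot v r = 0 := by
  intro B
  induction B with
  | nil => intro r _ _ _ h; exact h
  | cons b B ih =>
    intro r hE hr hB h
    have hE' : Ech ℓ N B := ⟨fun b hb => hE.len b (by simp [hb]),
      fun b hb => hE.small b (by simp [hb]), fun b hb => hE.piv b (by simp [hb]),
      (List.pairwise_cons.1 hE.ech).2⟩
    have h1 := ih (red1 ℓ b r) hE' (length_red1 (hE.len b (by simp)) hr)
      (fun b hb => hB b (by simp [hb])) h
    rw [dot_red1 v (by rw [hr, hE.len b (by simp)]), hB b (by simp), mul_zero, sub_zero] at h1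
    rcases mul_eq_zero.1 h1 with h2 | h2
    · exact absurd h2 (cast_ne_zero (hE.piv b (by simp)) (getD_small (hE.small b (by simp)) _))
    · exact h2

theorem dot_redAll : ∀ (B : List (ℕ × List ℕ)) (r : List ℕ), (∀ b ∈ B, b.2.length = N) →
    r.length = N → (∀ b ∈ B, dot v b.2 = 0) → dot v r = 0 → dot v (redAll ℓ B r) = 0 := by
  intro B
  induction B with
  | nil => intro r _ _ _ h; exact h
  | cons b B ih =>
    intro r hE hr hB h
    refine ih (red1 ℓ b r) (fun b hb => hE b (by simp [hb])) (length_red1 (hE b (by simp)) hr)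
      (fun b hb => hB b (by simp [hb])) ?_
    rw [dot_red1 v (by rw [hr, hE b (by simp)]), hB b (by simp), h]
    ring

theorem dot_basis {l : List (List ℕ)} (hl : ∀ r ∈ l, r.length = N) (hs : ∀ r ∈ l, Small ℓ r)
    (h0 : ∀ r ∈ l, dot v r = 0) : ∀ b ∈ basis ℓ l, dot v b.2 = 0 := by
  induction l with
  | nil => intro b hb; simp [basis] at hb
  | cons r l ih =>
    have hl' : ∀ r ∈ l, r.length = N := fun r hr => hl r (by simp [hr])
    have hs' : ∀ r ∈ l, Small ℓ r := fun r hr => hs r (by simp [hr])
    have ih' := ih hl' hs' (fun r hr => h0 r (by simp [hr]))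
    have hE := ech_basis (ℓ := ℓ) hl' hs'
    intro b hb
    change b ∈ addRow ℓ (basis ℓ l) r at hb
    unfold addRow at hb
    split_ifs at hb with h
    · exact ih' b hb
    · rcases List.mem_append.1 hb with hb | hb
      · exact ih' b hb
      · rw [List.mem_singleton] at hb
        subst hb
        exact dot_redAll (N := N) v _ r hE.len (hl r (by simp)) ih' (h0 r (by simp))

/-- Soundness of the test of linear dependence. -/
theorem dot_of_dependent {l : List (List ℕ)} (hl : ∀ r ∈ l, r.length = N)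
    (hs : ∀ r ∈ l, Small ℓ r) (h0 : ∀ r ∈ l, dot v r = 0) {r : List ℕ} (hr : r.length = N)
    (h : isZero (redAll ℓ (basis ℓ l) r) = true) : dot v r = 0 :=
  dot_of_redAll (N := N) v _ r (ech_basis hl hs) hr (dot_basis v hl hs h0)
    (dot_eq_zero_of_isZero v h)

end Dot

end Pool.Agent.J6H27.TT
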