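import Pool.Agent.J6H27.TT.Search
import Pool.Agent.J6H27.TT.Lin
import Pool.Agent.J6H27.TT.Defs

/-!
# Systems of polynomial equations in the answers of a tally oracle
-/

namespace Pool.Agent.J6H27.TT

open Pool.Agent.NPC

/-! ### Monomials -/

/-- the strings `0^i`, `i ≤ m` -/
def tallies (m : List Unit) : List (List Bool) :=
  (List.range (m.length + 1)).map (fun i => (m.map (fun _ => false)).take i)

theorem tallies_eq (m : List Unit) :
    tallies m = (List.range (m.length + 1)).map (fun i => List.replicate i false) := by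
  unfold tallies
  apply List.map_congr_left
  intro i hi
  rw [List.mem_range] at hi
  rw [List.map_const', List.take_replicate]
  congr 1
  omega

theorem mem_tallies {m : List Unit} {q : List Bool} :
    q ∈ tallies m ↔ ∃ i ≤ m.length, q = List.replicate i false := by
  rw [tallies_eq, List.mem_map]
  constructor
  · rintro ⟨i, hi, rfl⟩
    exact ⟨i, by have := List.mem_range.1 hi; omega, rfl⟩
  · rintro ⟨i, hi, rfl⟩
    exact ⟨i, List.mem_range.2 (by omega), rfl⟩

theorem nodup_tallies (m : List Unit) : (tallies m).Nodup := by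
  rw [tallies_eq]
  refine List.Nodup.map ?_ List.nodup_range
  intro i j h
  simpa using congrArg List.length h

theorem length_tallies (m : List Unit) : (tallies m).length = m.length + 1 := by
  simp [tallies]

/-- all lists of length at most `d` -/
def monos (Q : List (List Bool)) : ℕ → List (List (List Bool))
  | 0 => [[]]
  | d + 1 => [] :: Q.flatMap (fun q => (monos Q d).map (fun μ => q :: μ))

theorem mem_monos {Q : List (List Bool)} {d : ℕ} {μ : List (List Bool)} :
    μ ∈ monos Q d ↔ μ.length ≤ d ∧ ∀ q ∈ μ, q ∈ Q := by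
  induction d generalizing μ with
  | zero =>
    simp only [monos, List.mem_singleton, Nat.le_zero, List.length_eq_zero_iff]
    constructor
    · rintro rfl; simp
    · exact fun h => h.1
  | succ d ih =>
    cases μ with
    | nil => simp [monos]
    | cons q μ =>
      simp only [monos, List.mem_cons, reduceCtorEq, List.mem_flatMap, List.mem_map,
        List.cons.injEq, false_or, ih, List.length_cons, Nat.add_le_add_iff_right, forall_eq_or_imp]
      constructor
      · rintro ⟨q', hq', μ', ⟨h1, h2⟩, rfl, rfl⟩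
        exact ⟨h1, hq', h2⟩
      · rintro ⟨h1, h2, h3⟩
        exact ⟨q, h2, μ, ⟨h1, h3⟩, rfl, rfl⟩

theorem nodup_monos {Q : List (List Bool)} (hQ : Q.Nodup) (d : ℕ) : (monos Q d).Nodup := by
  induction d with
  | zero => simp [monos]
  | succ d ih =>
    rw [monos, List.nodup_cons]
    refine ⟨by simp, ?_⟩
    rw [List.nodup_flatMap]
    refine ⟨fun q _ => ih.map (fun μ ν h => by simpa using h), ?_⟩
    refine hQ.imp (fun {q q'} h => ?_)
    intro μ h1 h2
    rw [List.mem_map] at h1 h2
    obtain ⟨ν, _, rfl⟩ := h1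
    obtain ⟨ν', _, h3⟩ := h2
    rw [List.cons.injEq] at h3
    exact h h3.1.symm

/-- the number of monomials, as a polynomial -/
noncomputable def ulen : ℕ → Polynomial ℕ
  | 0 => 1
  | d + 1 => 1 + (Polynomial.X + 1) * ulen d

theorem length_monos (m : List Unit) (d : ℕ) :
    (monos (tallies m) d).length = (ulen d).eval m.length := by
  induction d with
  | zero => simp [monos, ulen]
  | succ d ih =>
    simp only [monos, ulen, List.length_cons, List.length_flatMap, List.length_map, ih,
      List.map_const', List.sum_replicate, smul_eq_mul, length_tallies, Polynomial.eval_add,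
      Polynomial.eval_mul, Polynomial.eval_X, Polynomial.eval_one]
    ring

/-! ### Rows of coefficients -/

/-- the coefficient of the monomial `μ` -/
def coef (P : QPoly) (μ : List (List Bool)) : ℕ :=
  ((P.filter (fun t => decide (t.2 = μ))).map (fun t => t.1)).sum

/-- the row of coefficients of an equation modulo `ℓ + 1` -/
def vec (ℓ : ℕ) (U : List (List (List Bool))) (e : QEqn) : List ℕ :=
  U.map (fun μ => (coef e.1 μ + ℓ * coef e.2 μ) % (ℓ + 1))

theorem coef_cons (t : ℕ × List (List Bool)) (P : QPoly) (μ : List (List Bool)) :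
    coef (t :: P) μ = (if t.2 = μ then t.1 else 0) + coef P μ := by
  unfold coef
  rw [List.filter_cons]
  by_cases h : t.2 = μ <;> simp [h]

theorem sum_single (f : List (List Bool) → ℕ) (ν : List (List Bool)) (c : ℕ) :
    ∀ U : List (List (List Bool)), U.Nodup →
      (U.map (fun μ => f μ * (if ν = μ then c else 0))).sum = if ν ∈ U then f ν * c else 0 := by
  intro U
  induction U with
  | nil => intro _; simp
  | cons μ U ih =>
    intro h
    rw [List.nodup_cons] at h
    rw [List.map_cons, List.sum_cons, ih h.2]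
    by_cases h1 : ν = μ
    · subst h1
      simp [h.1]
    · simp [h1]

theorem sum_coef {T : Set (List Bool)} {U : List (List (List Bool))} (hU : U.Nodup) :
    ∀ P : QPoly, (∀ t ∈ P, t.2 ∈ U ∨ answers T t.2 = 0) →
      (U.map (fun μ => answers T μ * coef P μ)).sum = value T P := by
  intro P
  induction P with
  | nil => intro _; simp [coef, value]
  | cons t P ih =>
    intro h
    have h1 := ih (fun t ht => h t (by simp [ht]))
    have h2 := sum_single (answers T) t.2 t.1 U hU
    have e : (U.map (fun μ => answers T μ * coef (t :: P) μ)).sum =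
        (U.map (fun μ => answers T μ * (if t.2 = μ then t.1 else 0))).sum +
          (U.map (fun μ => answers T μ * coef P μ)).sum := by
      rw [← List.sum_map_add]
      congr 1
      apply List.map_congr_left
      intro μ _
      rw [coef_cons]
      ring
    rw [e, h1, h2]
    unfold value
    rw [List.map_cons, List.sum_cons]
    rcases h t (by simp) with h3 | h3
    · rw [if_pos h3]
      ring
    · rw [h3]
      simp

theorem dot_map {ℓ : ℕ} (f : List (List Bool) → ZMod (ℓ + 1)) (g : List (List Bool) → ℕ)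
    (U : List (List (List Bool))) :
    dot (U.map f) (U.map g) = (U.map (fun μ => f μ * (g μ : ZMod (ℓ + 1)))).sum := by
  unfold dot
  induction U with
  | nil => simp
  | cons μ U ih => simp only [List.map_cons, List.zipWith_cons_cons, List.sum_cons, ih]

theorem dot_vec {ℓ : ℕ} {T : Set (List Bool)} {U : List (List (List Bool))} (hU : U.Nodup)
    {e : QEqn} (he : ∀ t ∈ e.1 ++ e.2, t.2 ∈ U ∨ answers T t.2 = 0) :
    dot (U.map (fun μ => ((answers T μ : ℕ) : ZMod (ℓ + 1)))) (vec ℓ U e) =
      (value T e.1 : ZMod (ℓ + 1)) - (value T e.2 : ZMod (ℓ + 1)) := by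
  unfold vec
  rw [dot_map]
  have h1 := sum_coef hU e.1 (fun t ht => he t (by simp [ht]))
  have h2 := sum_coef hU e.2 (fun t ht => he t (by simp [ht]))
  rw [← h1, ← h2]
  have hl : ((ℓ : ℕ) : ZMod (ℓ + 1)) = -1 := by
    have : ((ℓ + 1 : ℕ) : ZMod (ℓ + 1)) = 0 := ZMod.natCast_self _
    push_cast at this
    linear_combination this
  clear h1 h2 he hU
  induction U with
  | nil => simp
  | cons μ U ih =>
    simp only [List.map_cons, List.sum_cons, ih]
    rw [ZMod.natCast_mod]
    push_cast
    rw [hl]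
    ring

theorem small_vec (ℓ : ℕ) (U : List (List (List Bool))) (e : QEqn) : Small ℓ (vec ℓ U e) := by
  intro x hx
  unfold vec at hx
  rw [List.mem_map] at hx
  obtain ⟨μ, _, rfl⟩ := hx
  exact Nat.mod_lt _ (Nat.succ_pos _)

theorem length_vec (ℓ : ℕ) (U : List (List (List Bool))) (e : QEqn) :
    (vec ℓ U e).length = U.length := by simp [vec]

theorem holds_iff {ℓ : ℕ} {T : Set (List Bool)} {U : List (List (List Bool))} (hU : U.Nodup)
    {e : QEqn} (he : ∀ t ∈ e.1 ++ e.2, t.2 ∈ U ∨ answers T t.2 = 0) :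
    dot (U.map (fun μ => ((answers T μ : ℕ) : ZMod (ℓ + 1)))) (vec ℓ U e) = 0 ↔
      Holds (ℓ + 1) T e := by
  rw [dot_vec hU he, sub_eq_zero, ZMod.natCast_eq_natCast_iff]
  rfl

/-! ### The implication test -/

/-- linear dependence modulo all numbers `ℓ + 1`, `ℓ ∈ Ps` -/
def impL (Ps : List ℕ) (U : List (List (List Bool))) (l : List QEqn) (e : QEqn) : Bool :=
  Ps.all (fun ℓ => isZero (redAll ℓ (basis ℓ (l.map (vec ℓ U))) (vec ℓ U e)))

theorem impL_sound {Ps : List ℕ} {T : Set (List Bool)} {U : List (List (List Bool))}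
    (hU : U.Nodup) {l : List QEqn} {e : QEqn}
    (hl : ∀ e ∈ l, ∀ t ∈ e.1 ++ e.2, t.2 ∈ U ∨ answers T t.2 = 0)
    (he : ∀ t ∈ e.1 ++ e.2, t.2 ∈ U ∨ answers T t.2 = 0)
    (h : impL Ps U l e = true) {ℓ : ℕ} (hℓ : ℓ ∈ Ps) (hp : (ℓ + 1).Prime)
    (h0 : ∀ e ∈ l, Holds (ℓ + 1) T e) : Holds (ℓ + 1) T e := by
  haveI : Fact (ℓ + 1).Prime := ⟨hp⟩
  unfold impL at h
  rw [List.all_eq_true] at h
  have h1 := h ℓ hℓ
  rw [← holds_iff hU he]
  refine dot_of_dependent (N := U.length) _ (l := l.map (vec ℓ U)) ?_ ?_ ?_ (length_vec _ _ _) h1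
  · intro r hr
    rw [List.mem_map] at hr
    obtain ⟨e', _, rfl⟩ := hr
    exact length_vec _ _ _
  · intro r hr
    rw [List.mem_map] at hr
    obtain ⟨e', _, rfl⟩ := hr
    exact small_vec _ _ _
  · intro r hr
    rw [List.mem_map] at hr
    obtain ⟨e', he', rfl⟩ := hr
    exact (holds_iff hU (hl e' he')).2 (h0 e' he')

theorem impL_bound {Ps : List ℕ} {U : List (List (List Bool))} :
    ∀ l : List QEqn, Indep (impL Ps U) l → l.length ≤ Ps.length * U.length := by
  intro l hl
  have key : ∀ l : List QEqn, Indep (impL Ps U) l →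
      l.length ≤ (Ps.map (fun ℓ => (basis ℓ (l.map (vec ℓ U))).length)).sum := by
    intro l
    induction l with
    | nil => intro _; simp
    | cons e l ih =>
      intro h
      have h1 := ih h.1
      have h2 := h.2
      unfold impL at h2
      rw [List.all_eq_false] at h2
      obtain ⟨ℓ, hℓ, h2⟩ := h2
      have h3 : ∀ ℓ' ∈ Ps, (basis ℓ' (l.map (vec ℓ' U))).length ≤
          (basis ℓ' ((e :: l).map (vec ℓ' U))).length := by
        intro ℓ' _
        exact (length_addRow (ℓ := ℓ') (B := basis ℓ' (l.map (vec ℓ' U))) (r := vec ℓ' U e)).1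
      have h4 : (basis ℓ (l.map (vec ℓ U))).length < (basis ℓ ((e :: l).map (vec ℓ U))).length := by
        have := (length_addRow (ℓ := ℓ) (B := basis ℓ (l.map (vec ℓ U))) (r := vec ℓ U e)).2
          (by simpa using h2)
        change _ < (addRow ℓ (basis ℓ (l.map (vec ℓ U))) (vec ℓ U e)).length
        omega
      have h5 := List.sum_lt_sum (fun ℓ => (basis ℓ (l.map (vec ℓ U))).length)
        (fun ℓ => (basis ℓ ((e :: l).map (vec ℓ U))).length) h3 ⟨ℓ, hℓ, h4⟩
      rw [List.length_cons]
      omega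
  refine (key l hl).trans ?_
  have := List.sum_le_card_nsmul (Ps.map (fun ℓ => (basis ℓ (l.map (vec ℓ U))).length)) U.length
    (by
      intro x hx
      rw [List.mem_map] at hx
      obtain ⟨ℓ, _, rfl⟩ := hx
      refine (ech_basis (N := U.length) ?_ ?_).length_le
      · intro r hr
        rw [List.mem_map] at hr
        obtain ⟨e', _, rfl⟩ := hr
        exact length_vec _ _ _
      · intro r hr
        rw [List.mem_map] at hr
        obtain ⟨e', _, rfl⟩ := hr
        exact small_vec _ _ _)
  simpa using this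

/-! ### Polynomial time -/

section

variable {α : Type} [TEnc α]

@[fun_prop]
theorem poly_isZero {r : α → List ℕ} (hr : Poly r) : Poly (fun a => isZero (r a)) := by
  unfold isZero
  fun_prop

@[fun_prop]
theorem poly_pivot {r : α → List ℕ} (hr : Poly r) : Poly (fun a => pivot (r a)) := by
  unfold pivot
  fun_prop

theorem poly_red1 {ℓ : α → ℕ} {b : α → ℕ × List ℕ} {r : α → List ℕ} (hℓ : Poly ℓ) (hb : Poly b)
    (hr : Poly r) : Poly (fun a => red1 (ℓ a) (b a) (r a)) := by
  have h1 : Poly (fun x : α × (ℕ × ℕ) => (b x.1).2.getD (b x.1).1 0) :=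
    Poly.getD (by fun_prop) (by fun_prop) (NPC.Poly.const _)
  have h2 : Poly (fun x : α × (ℕ × ℕ) => (r x.1).getD (b x.1).1 0) :=
    Poly.getD (by fun_prop) (by fun_prop) (NPC.Poly.const _)
  have h : Poly (fun a => ((r a).zip (b a).2).map (fun y =>
      ((b a).2.getD (b a).1 0 * y.1 +
        (ℓ a + 1 - (r a).getD (b a).1 0 % (ℓ a + 1)) * y.2) % (ℓ a + 1))) := by
    refine NPC.Poly.map (F := fun a (y : ℕ × ℕ) => ((b a).2.getD (b a).1 0 * y.1 +
        (ℓ a + 1 - (r a).getD (b a).1 0 % (ℓ a + 1)) * y.2) % (ℓ a + 1)) (by fun_prop) ?_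
    have h3 : Poly (fun x : α × (ℕ × ℕ) => ℓ x.1 + 1) := by fun_prop
    exact Poly.mod (Poly.add (Poly.mul h1 (by fun_prop))
      (Poly.mul (Poly.sub h3 (Poly.mod h2 h3)) (by fun_prop))) h3
  refine h.congr fun a => ?_
  unfold red1
  rw [List.map_zip_eq_zipWith]
  rfl

theorem sz_small {ℓ : ℕ} {r : List ℕ} (h : Small ℓ r) : sz r ≤ r.length * (2 * sz ℓ + 1) + 1 :=
  sz_le_length_mul r _ (fun x hx => sz_nat_mono_le (by have := h x hx; omega))

theorem redAll_take_length (ℓ : ℕ) : ∀ (B : List (ℕ × List ℕ)) (r : List ℕ),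
    (redAll ℓ B r).length ≤ r.length := by
  intro B
  induction B with
  | nil => intro r; exact le_rfl
  | cons b B ih =>
    intro r
    refine (ih (red1 ℓ b r)).trans ?_
    unfold red1
    rw [List.length_zipWith]
    exact Nat.min_le_left _ _

theorem sz_redAll (ℓ : ℕ) (B : List (ℕ × List ℕ)) (r : List ℕ) :
    sz (redAll ℓ B r) ≤ sz r + (sz r * (2 * sz ℓ + 1) + 1) := by
  cases B with
  | nil => change sz r ≤ _; omega
  | cons b B =>
    have h1 : Small ℓ (redAll ℓ (b :: B) r) := small_redAll B _ (small_red1 _ _)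
    have h2 := sz_small h1
    have h3 := redAll_take_length ℓ (b :: B) r
    have h4 := length_lt_sz r
    have h5 : (redAll ℓ (b :: B) r).length * (2 * sz ℓ + 1) ≤ sz r * (2 * sz ℓ + 1) :=
      Nat.mul_le_mul_right _ (by omega)
    omega

theorem poly_redAll {ℓ : α → ℕ} {B : α → List (ℕ × List ℕ)} {r : α → List ℕ} (hℓ : Poly ℓ)
    (hB : Poly B) (hr : Poly r) : Poly (fun a => redAll (ℓ a) (B a) (r a)) := by
  obtain ⟨p, hp⟩ := hℓ.sz_le
  obtain ⟨q, hq⟩ := hr.sz_le
  unfold redAll
  refine Poly.foldl (F := fun a r b => red1 (ℓ a) b r) hB hr ?_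
    (q + (q * (Polynomial.C 2 * p + 1) + 1)) ?_
  · exact poly_red1 (hℓ.comp (Poly.fst Poly.id)) (by fun_prop) (by fun_prop)
  · intro a k _
    have h1 := sz_redAll (ℓ a) ((B a).take k) (r a)
    have h2 := hp a
    have h3 := hq a
    simp only [Polynomial.eval_add, Polynomial.eval_mul, Polynomial.eval_C, Polynomial.eval_one]
    refine le_trans h1 ?_
    have h4 : sz (r a) * (2 * sz (ℓ a) + 1) ≤
        q.eval (sz a) * (2 * p.eval (sz a) + 1) := Nat.mul_le_mul h3 (by omega)
    omega

theorem mem_basis {ℓ : ℕ} : ∀ (l : List (List ℕ)), ∀ b ∈ basis ℓ l,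
    ∃ B, ∃ r ∈ l, b = (pivot (redAll ℓ B r), redAll ℓ B r) := by
  intro l
  induction l with
  | nil => intro b hb; simp [basis] at hb
  | cons r l ih =>
    intro b hb
    change b ∈ addRow ℓ (basis ℓ l) r at hb
    unfold addRow at hb
    split_ifs at hb with h
    · obtain ⟨B, r', hr', h'⟩ := ih b hb
      exact ⟨B, r', by simp [hr'], h'⟩
    · rcases List.mem_append.1 hb with hb | hb
      · obtain ⟨B, r', hr', h'⟩ := ih b hb
        exact ⟨B, r', by simp [hr'], h'⟩
      · rw [List.mem_singleton] at hb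
        exact ⟨_, r, by simp, hb⟩

theorem length_basis_le (ℓ : ℕ) (l : List (List ℕ)) : (basis ℓ l).length ≤ l.length := by
  induction l with
  | nil => simp [basis]
  | cons r l ih =>
    change (addRow ℓ (basis ℓ l) r).length ≤ _
    unfold addRow
    split_ifs <;> simp <;> omega

theorem pivot_le (r : List ℕ) : pivot r ≤ r.length := by
  unfold pivot
  cases hl : (r.zipIdx.filter (fun y => decide (y.1 ≠ 0))) with
  | nil => simp
  | cons y l =>
    have hy : y ∈ r.zipIdx.filter (fun y => decide (y.1 ≠ 0)) := by rw [hl]; simp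
    rw [List.mem_filter] at hy
    obtain ⟨h1, h2⟩ := hy
    rw [List.mem_zipIdx_iff_getElem?] at h1
    obtain ⟨h3, h4⟩ := List.getElem?_eq_some_iff.1 h1
    simp only [List.map_cons, List.head?_cons, Option.getD_some]
    exact h3.le

theorem poly_basis {ℓ : α → ℕ} {l : α → List (List ℕ)} (hℓ : Poly ℓ) (hl : Poly l) :
    Poly (fun a => basis (ℓ a) (l a)) := by
  obtain ⟨p, hp⟩ := hℓ.sz_le
  obtain ⟨q, hq⟩ := hl.sz_le
  unfold basis
  refine Poly.foldr (F := fun a r B => addRow (ℓ a) B r) hl (NPC.Poly.const _) ?_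
    (q * (Polynomial.C 5 * (q + (q * (Polynomial.C 2 * p + 1) + 1)) + 2) + 1 + 1) ?_
  · unfold addRow
    have h1 : Poly (fun x : α × List ℕ × List (ℕ × List ℕ) => redAll (ℓ x.1) x.2.2 x.2.1) :=
      poly_redAll (hℓ.comp (Poly.fst Poly.id)) (by fun_prop) (by fun_prop)
    exact Poly.ite (p := fun x : α × List ℕ × List (ℕ × List ℕ) =>
      isZero (redAll (ℓ x.1) x.2.2 x.2.1) = true) (Poly.decide_bool (poly_isZero h1))
      (by fun_prop) (by fun_prop)
  · intro a k _
    change sz (basis (ℓ a) ((l a).drop k)) ≤ _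
    have h2 := hp a
    have h3 := hq a
    have h4 := Poly.sz_drop_le (l a) k
    set S := q.eval (sz a) + (q.eval (sz a) * (2 * p.eval (sz a) + 1) + 1) with hS
    have h1 := sz_le_length_mul (basis (ℓ a) ((l a).drop k)) (5 * S + 1) (by
      intro b hb
      obtain ⟨B, r, hr, rfl⟩ := mem_basis _ b hb
      have e1 := sz_redAll (ℓ a) B r
      have e2 := sz_le_of_mem hr
      have e3 : sz r * (2 * sz (ℓ a) + 1) ≤ q.eval (sz a) * (2 * p.eval (sz a) + 1) :=
        Nat.mul_le_mul (by omega) (by omega)
      have e4 : sz (redAll (ℓ a) B r) ≤ S := by omega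
      have e5 := pivot_le (redAll (ℓ a) B r)
      have e6 := length_lt_sz (redAll (ℓ a) B r)
      have e7 := sz_nat_le (pivot (redAll (ℓ a) B r))
      have e8 := Poly.size_le_self (pivot (redAll (ℓ a) B r))
      rw [sz_pair]
      omega)
    have h5 := length_basis_le (ℓ a) ((l a).drop k)
    have h6 := length_lt_sz ((l a).drop k)
    simp only [Polynomial.eval_add, Polynomial.eval_mul, Polynomial.eval_C, Polynomial.eval_one,
      Polynomial.eval_ofNat]
    refine h1.trans ?_
    rw [← hS]
    have h7 : (basis (ℓ a) ((l a).drop k)).length * (5 * S + 1 + 1) ≤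
        q.eval (sz a) * (5 * S + 2) := Nat.mul_le_mul (by omega) (by omega)
    omega

@[fun_prop]
theorem poly_coef {P : α → QPoly} {μ : α → List (List Bool)} (hP : Poly P) (hμ : Poly μ) :
    Poly (fun a => coef (P a) (μ a)) := by
  unfold coef
  fun_prop

theorem poly_vec {ℓ : α → ℕ} {U : α → List (List (List Bool))} {e : α → QEqn} (hℓ : Poly ℓ)
    (hU : Poly U) (he : Poly e) : Poly (fun a => vec (ℓ a) (U a) (e a)) := by
  unfold vec
  fun_prop

theorem poly_impL {Ps : α → List ℕ} {U : α → List (List (List Bool))} {l : α → List QEqn}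
    {e : α → QEqn} (hPs : Poly Ps) (hU : Poly U) (hl : Poly l) (he : Poly e) :
    Poly (fun a => impL (Ps a) (U a) (l a) (e a)) := by
  unfold impL
  refine Poly.all (p := fun a ℓ => isZero (redAll ℓ (basis ℓ ((l a).map (vec ℓ (U a))))
    (vec ℓ (U a) (e a)))) hPs ?_
  refine poly_isZero (poly_redAll (Poly.snd Poly.id) (poly_basis (Poly.snd Poly.id) ?_)
    (poly_vec (Poly.snd Poly.id) (hU.comp (Poly.fst Poly.id)) (he.comp (Poly.fst Poly.id))))
  refine NPC.Poly.map (F := fun (x : α × ℕ) e' => vec x.2 (U x.1) e')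
    (hl.comp (Poly.fst Poly.id)) ?_
  exact poly_vec (Poly.snd (Poly.fst Poly.id)) (hU.comp (Poly.fst (Poly.fst Poly.id)))
    (Poly.snd Poly.id)

theorem poly_tallies {m : α → List Unit} (hm : Poly m) : Poly (fun a => tallies (m a)) := by
  unfold tallies
  have h1 : UPoly (fun a => (m a).length + 1) := UPoly.add (UPoly.length hm) (UPoly.const 1)
  refine NPC.Poly.map (F := fun a i => ((m a).map (fun _ => false)).take i) h1.range ?_
  fun_prop

theorem poly_monos {Q : α → List (List Bool)} (hQ : Poly Q) (d : ℕ) :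
    Poly (fun a => monos (Q a) d) := by
  induction d with
  | zero => unfold monos; exact NPC.Poly.const _
  | succ d ih =>
    unfold monos
    refine Poly.cons (NPC.Poly.const _) (Poly.flatMap (F := fun a q =>
      (monos (Q a) d).map (fun μ => q :: μ)) hQ ?_)
    exact NPC.Poly.map (F := fun (x : α × List Bool) μ => x.2 :: μ)
      (ih.comp (Poly.fst Poly.id)) (by fun_prop)

end

end Pool.Agent.J6H27.TT
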