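import Pool.Agent.J6H27.TT.Eqn
import Pool.Agent.J6H27.KS.Search

/-!
# Tally sets that are hard for `NP` under truth-table reductions with algebraic evaluation
-/

namespace Pool.Agent.J6H27.TT

open Pool.Agent.NPC Pool.Agent.H660R2.NX

/-! ### Many small primes -/

/-- the numbers `ℓ < n` such that `ℓ + 1` is prime -/
def primesL (n : ℕ) : List ℕ := (List.range n).filter (fun ℓ => decide (1 ≤ ℓ) &&
  (List.range n).all (fun c => !(decide (2 ≤ c) && (decide (c ≤ ℓ) && decide ((ℓ + 1) % c = 0)))))

theorem mem_primesL {n ℓ : ℕ} : ℓ ∈ primesL n ↔ ℓ < n ∧ (ℓ + 1).Prime := by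
  unfold primesL
  rw [List.mem_filter, List.mem_range]
  simp only [Bool.and_eq_true, decide_eq_true_eq, List.all_eq_true, List.mem_range,
    Bool.not_eq_true', Bool.and_eq_false_iff, decide_eq_false_iff_not, Nat.prime_def_lt]
  constructor
  · rintro ⟨h1, h2, h3⟩
    refine ⟨h1, by omega, fun m hm hd => ?_⟩
    by_contra hne
    have hm0 : m ≠ 0 := by rintro rfl; simp at hd
    have := h3 m (by omega)
    have h4 := Nat.mod_eq_zero_of_dvd hd
    omega
  · rintro ⟨h1, h2, h3⟩
    refine ⟨h1, by omega, fun c _ => ?_⟩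
    by_contra hne
    push Not at hne
    obtain ⟨h4, h5, h6⟩ := hne
    have := h3 c (by omega) (Nat.dvd_of_mod_eq_zero h6)
    omega

theorem nodup_primesL (n : ℕ) : (primesL n).Nodup := List.nodup_range.filter _

theorem primeCounting_le_length (n : ℕ) : Nat.primeCounting n ≤ (primesL n).length := by
  rw [← Nat.primesLE_card_eq_primeCounting, ← List.toFinset_card_of_nodup (nodup_primesL n)]
  refine Finset.card_le_card_of_injOn (fun p => p - 1) ?_ ?_
  · intro p hp
    have h1 := Nat.mem_primesLE.1 hp
    have h2 := h1.2.two_le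
    rw [Finset.mem_coe, List.mem_toFinset, mem_primesL]
    have e : p - 1 + 1 = p := by omega
    have h3 := h1.1
    beta_reduce
    rw [e]
    exact ⟨by omega, h1.2⟩
  · intro p hp q hq h
    have h1 := (Nat.mem_primesLE.1 hp).2.two_le
    have h2 := (Nat.mem_primesLE.1 hq).2.two_le
    simp only at h
    omega

theorem le_primeCounting (K : ℕ) : K ≤ Nat.primeCounting (16 * (K + 1) ^ 2) := by
  have h := Chebyshev.pi_ge (16 * (K + 1) ^ 2)
  have hN : (4 : ℝ) ≤ 4 * ((K : ℝ) + 1) := by
    have : (0 : ℝ) ≤ K := Nat.cast_nonneg K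
    linarith
  set N : ℝ := 4 * ((K : ℝ) + 1) with hNdef
  have e1 : ((16 * (K + 1) ^ 2 : ℕ) : ℝ) = N ^ 2 := by
    rw [hNdef]; push_cast; ring
  rw [e1] at h
  have hNpos : 0 < N := by linarith
  have hlog2 : Real.log 2 < 0.7 := lt_trans Real.log_two_lt_d9 (by norm_num)
  have hlog2' : 0.69 < Real.log 2 := lt_trans (by norm_num) Real.log_two_gt_d9
  have hlogN : Real.log N ≤ N / 2 := by
    have h1 : Real.log (N / 2) ≤ N / 2 - 1 := Real.log_le_sub_one_of_pos (by linarith)
    rw [Real.log_div (by linarith) (by norm_num)] at h1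
    linarith
  have hlogNpos : 0 < Real.log N := Real.log_pos (by linarith)
  have hlogN1 : Real.log (N ^ 2 + 1) ≤ 0.7 + N := by
    have h1 : Real.log (N ^ 2 + 1) ≤ Real.log (2 * N ^ 2) :=
      Real.log_le_log (by positivity) (by nlinarith)
    rw [Real.log_mul (by norm_num) (by positivity), Real.log_pow] at h1
    push_cast at h1
    linarith
  have hlogNsq : Real.log (N ^ 2) = 2 * Real.log N := by
    rw [Real.log_pow]; push_cast; ring
  rw [hlogNsq] at h
  have hK : (K : ℝ) ≤ (N ^ 2 * Real.log 2 - Real.log (N ^ 2 + 1)) / (2 * Real.log N) := by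
    rw [le_div_iff₀ (by linarith)]
    have h1 : (K : ℝ) * (2 * Real.log N) ≤ K * N := by
      have : (0 : ℝ) ≤ K := Nat.cast_nonneg K
      nlinarith
    have h2 : N ^ 2 * 0.69 ≤ N ^ 2 * Real.log 2 := by nlinarith [sq_nonneg N]
    have h3 : (K : ℝ) = N / 4 - 1 := by rw [hNdef]; ring
    rw [h3] at h1 ⊢
    nlinarith
  exact_mod_cast hK.trans h

/-- Two numbers that are congruent modulo many primes are equal if they are not too large. -/
theorem eq_of_congr {a b K : ℕ} (hab : a + b ≤ 2 ^ K)
    (h : ∀ ℓ ∈ primesL (16 * (K + 2) ^ 2), a ≡ b [MOD ℓ + 1]) : a = b := by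
  by_contra hne
  have h1 : ∏ q ∈ (primesL (16 * (K + 2) ^ 2)).toFinset.map ⟨fun ℓ => ℓ + 1,
      fun x y h => by simpa using h⟩, q ∣ ((b : ℤ) - a).natAbs := by
    apply Finset.prod_primes_dvd
    · intro q hq
      rw [Finset.mem_map] at hq
      obtain ⟨ℓ, hℓ, rfl⟩ := hq
      exact (mem_primesL.1 (List.mem_toFinset.1 hℓ)).2.prime
    · intro q hq
      rw [Finset.mem_map] at hq
      obtain ⟨ℓ, hℓ, rfl⟩ := hq
      have := Nat.modEq_iff_dvd.1 (h ℓ (List.mem_toFinset.1 hℓ))
      exact Int.natCast_dvd.1 this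
  have h2 : ((b : ℤ) - a).natAbs ≠ 0 := by
    rw [Int.natAbs_ne_zero]
    omega
  have h3 := Nat.le_of_dvd (Nat.pos_of_ne_zero h2) h1
  have h4 : ((b : ℤ) - a).natAbs ≤ 2 ^ K := by omega
  have h5 : 2 ^ (K + 1) ≤ ∏ q ∈ (primesL (16 * (K + 2) ^ 2)).toFinset.map ⟨fun ℓ => ℓ + 1,
      fun x y h => by simpa using h⟩, q := by
    have h6 : K + 1 ≤ ((primesL (16 * (K + 2) ^ 2)).toFinset.map ⟨fun ℓ => ℓ + 1,
        fun x y h => by simpa using h⟩).card := by
      rw [Finset.card_map, List.toFinset_card_of_nodup (nodup_primesL _)]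
      exact (le_primeCounting (K + 1)).trans (primeCounting_le_length _)
    refine (Nat.pow_le_pow_right (by norm_num) h6).trans ?_
    apply Finset.pow_card_le_prod
    intro q hq
    rw [Finset.mem_map] at hq
    obtain ⟨ℓ, hℓ, rfl⟩ := hq
    exact (mem_primesL.1 (List.mem_toFinset.1 hℓ)).2.two_le
  have h6 : 2 ^ K < 2 ^ (K + 1) := Nat.pow_lt_pow_right (by norm_num) (by omega)
  omega

/-! ### Products of polynomials -/

/-- the product -/
def mulP (P P' : QPoly) : QPoly :=
  P.flatMap (fun t => P'.map (fun t' => (t.1 * t'.1, t.2 ++ t'.2)))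

/-- the sum of the coefficients -/
def csum (P : QPoly) : ℕ := (P.map (fun t => t.1)).sum

theorem answers_append (T : Set (List Bool)) (μ ν : List (List Bool)) :
    answers T (μ ++ ν) = answers T μ * answers T ν := by
  simp [answers]

theorem value_append (T : Set (List Bool)) (P P' : QPoly) :
    value T (P ++ P') = value T P + value T P' := by
  simp [value]

theorem value_mulP (T : Set (List Bool)) (P P' : QPoly) :
    value T (mulP P P') = value T P * value T P' := by
  induction P with
  | nil => simp [mulP, value]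
  | cons t P ih =>
    have e : mulP (t :: P) P' = P'.map (fun t' => (t.1 * t'.1, t.2 ++ t'.2)) ++ mulP P P' := rfl
    rw [e, value_append, ih]
    have e2 : value T (P'.map (fun t' => (t.1 * t'.1, t.2 ++ t'.2))) =
        t.1 * answers T t.2 * value T P' := by
      unfold value
      rw [List.map_map, ← List.sum_map_mul_left]
      congr 1
      apply List.map_congr_left
      intro t' _
      simp only [Function.comp_apply, answers_append]
      ring
    have e3 : value T (t :: P) = t.1 * answers T t.2 + value T P := by simp [value]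
    rw [e2, e3]
    ring

theorem csum_mulP (P P' : QPoly) : csum (mulP P P') = csum P * csum P' := by
  induction P with
  | nil => simp [mulP, csum]
  | cons t P ih =>
    have e : mulP (t :: P) P' = P'.map (fun t' => (t.1 * t'.1, t.2 ++ t'.2)) ++ mulP P P' := rfl
    have e2 : csum (P'.map (fun t' => (t.1 * t'.1, t.2 ++ t'.2))) = t.1 * csum P' := by
      unfold csum
      rw [List.map_map, ← List.sum_map_mul_left]
      rfl
    have e3 : csum (t :: P) = t.1 + csum P := by simp [csum]
    have e4 : csum (P'.map (fun t' => (t.1 * t'.1, t.2 ++ t'.2)) ++ mulP P P') =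
        csum (P'.map (fun t' => (t.1 * t'.1, t.2 ++ t'.2))) + csum (mulP P P') := by simp [csum]
    rw [e, e4, ih, e2, e3]
    ring

theorem answers_le_one (T : Set (List Bool)) (μ : List (List Bool)) : answers T μ ≤ 1 := by
  unfold answers
  induction μ with
  | nil => simp
  | cons q μ ih =>
    rw [List.map_cons, List.prod_cons]
    split_ifs
    · simpa using ih
    · simp

theorem value_le_csum (T : Set (List Bool)) (P : QPoly) : value T P ≤ csum P := by
  unfold value csum
  apply List.sum_le_sum
  intro t _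
  have := answers_le_one T t.2
  nlinarith

theorem csum_lt (P : QPoly) : csum P + 1 ≤ 2 ^ sz P := by
  induction P with
  | nil => simp [csum]
  | cons t P ih =>
    obtain ⟨c, μ⟩ := t
    have e3 : csum ((c, μ) :: P) = c + csum P := by simp [csum]
    rw [e3, sz_list_cons, sz_pair]
    have h1 : c < 2 ^ c.size := Nat.lt_size_self c
    have h2 : 2 ^ c.size ≤ 2 ^ sz c := Nat.pow_le_pow_right (by norm_num) (by
      have := size_le_sz c; omega)
    have h3 : 2 ^ sz c + 2 ^ sz P ≤ 2 ^ sz c * 2 ^ sz P := by
      have e1 : 2 ≤ 2 ^ sz c := by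
        calc 2 = 2 ^ 1 := rfl
          _ ≤ _ := Nat.pow_le_pow_right (by norm_num) (sz_pos c)
      have e2 : 2 ≤ 2 ^ sz P := by
        calc 2 = 2 ^ 1 := rfl
          _ ≤ _ := Nat.pow_le_pow_right (by norm_num) (sz_pos P)
      nlinarith
    rw [← pow_add] at h3
    have h4 : 2 ^ (sz c + sz P) ≤ 2 ^ (sz c + sz μ + 1 + sz P + 1) :=
      Nat.pow_le_pow_right (by norm_num) (by omega)
    calc c + csum P + 1 ≤ 2 ^ sz c + 2 ^ sz P := by omega
      _ ≤ 2 ^ (sz c + sz P) := h3
      _ ≤ _ := Nat.pow_le_pow_right (by norm_num) (by omega)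

/-! ### Equations as conditions -/

/-- the disjunction of two equations -/
def orE (e e' : QEqn) : QEqn :=
  (mulP e.1 e'.1 ++ mulP e.2 e'.2, mulP e.1 e'.2 ++ mulP e.2 e'.1)

/-- an equation that does not hold -/
def ffE : QEqn := ([(1, [])], [])

theorem holds_orE {p : ℕ} (hp : p = 0 ∨ p.Prime) (T : Set (List Bool)) (e e' : QEqn) :
    Holds p T (orE e e') ↔ Holds p T e ∨ Holds p T e' := by
  unfold Holds orE
  simp only [value_append, value_mulP, Nat.modEq_iff_dvd]
  have key : (((value T e.1 * value T e'.2 + value T e.2 * value T e'.1 : ℕ) : ℤ) -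
      ((value T e.1 * value T e'.1 + value T e.2 * value T e'.2 : ℕ) : ℤ)) =
      -(((value T e.2 : ℕ) : ℤ) - (value T e.1 : ℕ)) *
        (((value T e'.2 : ℕ) : ℤ) - (value T e'.1 : ℕ)) := by
    push_cast; ring
  rw [key, neg_mul, dvd_neg]
  rcases hp with rfl | hp
  · simp only [Nat.cast_zero, zero_dvd_iff, mul_eq_zero]
  · exact (Nat.prime_iff_prime_int.1 hp).dvd_mul

theorem not_holds_ffE {p : ℕ} (hp : p = 0 ∨ p.Prime) (T : Set (List Bool)) :
    ¬ Holds p T ffE := by
  unfold Holds ffE
  intro h
  have h1 : value T [(1, [])] = 1 := by simp [value, answers]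
  have h2 : value T [] = 0 := by simp [value]
  simp only at h
  rw [h1, h2, Nat.modEq_iff_dvd] at h
  rcases hp with rfl | hp
  · simp at h
  · have := Int.le_of_dvd (by norm_num) ((dvd_neg (a := (p : ℤ))).2 h)
    have := hp.two_le
    omega

/-- the degree is at most `d`, the queries have length at most `m`, and the coefficients are not
too large -/
def clsE (m d : ℕ) (e : QEqn) : Prop :=
  (∀ t ∈ e.1 ++ e.2, t.2.length ≤ d ∧ ∀ q ∈ t.2, q.length ≤ m) ∧
    csum e.1 + csum e.2 ≤ 2 ^ (m * d)

theorem mem_mulP {P P' : QPoly} {t : ℕ × List (List Bool)} (h : t ∈ mulP P P') :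
    ∃ s ∈ P, ∃ s' ∈ P', t = (s.1 * s'.1, s.2 ++ s'.2) := by
  unfold mulP at h
  rw [List.mem_flatMap] at h
  obtain ⟨s, hs, h⟩ := h
  rw [List.mem_map] at h
  obtain ⟨s', hs', rfl⟩ := h
  exact ⟨s, hs, s', hs', rfl⟩

theorem clsE_orE (m d d' : ℕ) (e e' : QEqn) (h : clsE m d e) (h' : clsE m d' e') :
    clsE m (d + d') (orE e e') := by
  obtain ⟨h1, h2⟩ := h
  obtain ⟨h1', h2'⟩ := h'
  have key : ∀ (s : ℕ × List (List Bool)) (s' : ℕ × List (List Bool)), s ∈ e.1 ++ e.2 →
      s' ∈ e'.1 ++ e'.2 → (s.2 ++ s'.2).length ≤ d + d' ∧ ∀ q ∈ s.2 ++ s'.2, q.length ≤ m := by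
    intro s s' hs hs'
    refine ⟨?_, fun q hq => ?_⟩
    · rw [List.length_append]
      exact Nat.add_le_add (h1 s hs).1 (h1' s' hs').1
    · rcases List.mem_append.1 hq with hq | hq
      · exact (h1 s hs).2 q hq
      · exact (h1' s' hs').2 q hq
  refine ⟨?_, ?_⟩
  · intro t ht
    unfold orE at ht
    simp only [List.mem_append] at ht
    rcases ht with (ht | ht) | (ht | ht) <;> obtain ⟨s, hs, s', hs', rfl⟩ := mem_mulP ht <;>
      exact key s s' (by simp [hs]) (by simp [hs'])
  · have e1 : csum (orE e e').1 + csum (orE e e').2 =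
        (csum e.1 + csum e.2) * (csum e'.1 + csum e'.2) := by
      unfold orE
      have ha : ∀ P P' : QPoly, csum (P ++ P') = csum P + csum P' := by
        intro P P'; simp [csum]
      simp only [ha, csum_mulP]
      ring
    have e2 : m * (d + d') = m * d + m * d' := by ring
    rw [e1, e2, pow_add]
    exact Nat.mul_le_mul h2 h2'

/-- the moduli that are used -/
def moduli (p d : ℕ) (m : List Unit) : List ℕ :=
  if p = 0 then primesL (16 * (m.length * d + 2) ^ 2) else [p - 1]

theorem length_moduli (p d : ℕ) (m : List Unit) :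
    (moduli p d m).length ≤ 16 * (m.length * d + 2) ^ 2 := by
  unfold moduli
  split_ifs
  · unfold primesL
    refine (List.length_filter_le _ _).trans ?_
    simp
  · have : 1 ≤ (m.length * d + 2) ^ 2 := Nat.one_le_pow _ _ (by omega)
    simp only [List.length_singleton]
    omega

theorem moduli_prime {p : ℕ} (hp : p = 0 ∨ p.Prime) {d : ℕ} {m : List Unit} {ℓ : ℕ}
    (h : ℓ ∈ moduli p d m) : (ℓ + 1).Prime := by
  unfold moduli at h
  split_ifs at h with h0
  · exact (mem_primesL.1 h).2
  · rcases hp with hp | hp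
    · exact absurd hp h0
    · rw [List.mem_singleton] at h
      have := hp.two_le
      have e : ℓ + 1 = p := by omega
      rwa [e]

theorem holds_moduli {p : ℕ} (hp : p = 0 ∨ p.Prime) {T : Set (List Bool)} {d : ℕ} {m : List Unit}
    {ℓ : ℕ} (h : ℓ ∈ moduli p d m) {e : QEqn} (he : Holds p T e) : Holds (ℓ + 1) T e := by
  unfold moduli at h
  split_ifs at h with h0
  · subst h0
    unfold Holds at he ⊢
    rw [Nat.modEq_zero_iff] at he
    rw [he]
  · rcases hp with hp | hp
    · exact absurd hp h0
    · rw [List.mem_singleton] at h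
      have := hp.two_le
      have e : ℓ + 1 = p := by omega
      rwa [e]

theorem holds_of_moduli {p : ℕ} (hp : p = 0 ∨ p.Prime) {T : Set (List Bool)} {d : ℕ}
    {m : List Unit} {e : QEqn} (hc : csum e.1 + csum e.2 ≤ 2 ^ (m.length * d))
    (h : ∀ ℓ ∈ moduli p d m, Holds (ℓ + 1) T e) : Holds p T e := by
  unfold moduli at h
  split_ifs at h with h0
  · subst h0
    unfold Holds
    rw [Nat.modEq_zero_iff]
    refine eq_of_congr (K := m.length * d) ?_ h
    have h1 := value_le_csum T e.1
    have h2 := value_le_csum T e.2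
    omega
  · rcases hp with hp | hp
    · exact absurd hp h0
    · have := hp.two_le
      have e' : p - 1 + 1 = p := by omega
      have := h (p - 1) (by simp)
      rwa [e'] at this

theorem upoly_sq {α : Type} [TEnc α] {m : α → List Unit} (hm : Poly m) (d : ℕ) :
    UPoly (fun a => 16 * ((m a).length * d + 2) ^ 2) := by
  have h1 : UPoly (fun a => (m a).length) := UPoly.length hm
  have := h1.eval (Polynomial.C 16 * (Polynomial.X * Polynomial.C d + Polynomial.C 2) ^ 2)
  refine this.congr fun a => ?_
  simp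

theorem poly_moduli {α : Type} [TEnc α] {m : α → List Unit} (hm : Poly m) (p d : ℕ) :
    Poly (fun a => moduli p d (m a)) := by
  unfold moduli
  split_ifs
  · unfold primesL
    have h1 : Poly (fun a => List.range (16 * ((m a).length * d + 2) ^ 2)) :=
      (upoly_sq hm d).range
    refine NPC.Poly.filter (p := fun a ℓ => decide (1 ≤ ℓ) &&
      (List.range (16 * ((m a).length * d + 2) ^ 2)).all (fun c =>
        !(decide (2 ≤ c) && (decide (c ≤ ℓ) && decide ((ℓ + 1) % c = 0))))) h1 ?_
    refine Poly.and (by fun_prop) ?_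
    refine Poly.all (p := fun (x : α × ℕ) c =>
      !(decide (2 ≤ c) && (decide (c ≤ x.2) && decide ((x.2 + 1) % c = 0))))
      (h1.comp (Poly.fst Poly.id)) ?_
    fun_prop
  · exact NPC.Poly.const _

/-- Equations modulo `p` in the answers of the tally oracle `T`, as conditions. -/
noncomputable def condE {p : ℕ} (hp : p = 0 ∨ p.Prime) {T : Set (List Bool)} (hT : Tally T) :
    Cond QEqn where
  sat := Holds p T
  orR := orE
  ff := ffE
  cls := clsE
  imp := fun d m l e => impL (moduli p d m) (monos (tallies m) d) l e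
  bnd := fun d => Polynomial.C 16 * (Polynomial.X * Polynomial.C d + Polynomial.C 2) ^ 2 * ulen d
  poly_or := by
    unfold orE mulP
    fun_prop
  poly_imp := fun d => poly_impL (poly_moduli (Poly.fst Poly.id) p d)
    (poly_monos (poly_tallies (Poly.fst Poly.id)) d) (Poly.fst (Poly.snd Poly.id))
    (Poly.snd (Poly.snd Poly.id))
  sat_or := holds_orE hp T
  sat_ff := not_holds_ffE hp T
  cls_or := clsE_orE
  cls_ff := fun m => by
    unfold clsE ffE csum
    simp
  cls_mono := fun m m' d d' e h hm hd => by
    refine ⟨fun t ht => ⟨(h.1 t ht).1.trans hd, fun q hq => ((h.1 t ht).2 q hq).trans hm⟩, ?_⟩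
    exact h.2.trans (Nat.pow_le_pow_right (by norm_num) (Nat.mul_le_mul hm hd))
  imp_sound := by
    intro d m l e hl he hsat himp
    have hU : (monos (tallies (List.replicate m ())) d).Nodup := nodup_monos (nodup_tallies _) d
    have hgood : ∀ e : QEqn, clsE m d e → ∀ t ∈ e.1 ++ e.2,
        t.2 ∈ monos (tallies (List.replicate m ())) d ∨ answers T t.2 = 0 := by
      intro e he t ht
      by_cases h : ∀ q ∈ t.2, q ∈ tallies (List.replicate m ())
      · exact Or.inl (mem_monos.2 ⟨(he.1 t ht).1, h⟩)
      · right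
        push Not at h
        obtain ⟨q, hq, hq'⟩ := h
        unfold answers
        rw [List.prod_eq_zero_iff, List.mem_map]
        refine ⟨q, hq, ?_⟩
        rw [if_neg]
        intro hqT
        obtain ⟨n, rfl⟩ := hT q hqT
        apply hq'
        rw [mem_tallies]
        refine ⟨n, ?_, rfl⟩
        have := (he.1 t ht).2 _ hq
        simpa using this
    refine holds_of_moduli hp (m := List.replicate m ()) (d := d) ?_ ?_
    · have := he.2
      simpa using this
    · intro ℓ hℓ
      exact impL_sound hU (fun e' he' => hgood e' (hl e' he')) (hgood e he) himp hℓ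
        (moduli_prime hp hℓ) (fun e' he' => holds_moduli hp hℓ (hsat e' he'))
  imp_bound := by
    intro d m l hl _
    have h1 := impL_bound l hl
    have h2 := length_moduli p d (List.replicate m ())
    rw [length_monos, List.length_replicate] at h1
    rw [List.length_replicate] at h2
    refine h1.trans ?_
    simp only [Polynomial.eval_mul, Polynomial.eval_pow, Polynomial.eval_add, Polynomial.eval_C,
      Polynomial.eval_X]
    exact Nat.mul_le_mul_right _ h2

/-! ### The theorem -/

theorem inP_of_tally {p d k : ℕ} (hp : p = 0 ∨ p.Prime) {A T : Set (List Bool)} (hT : Tally T)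
    (hA : NPHard A) (h : AlgReduces p d k A T) (L : Set (List Bool)) (hL : InNP L) : InP L := by
  classical
  obtain ⟨f, hf, hfx⟩ := h
  have hf' : Poly f := by
    have h1 : Poly (fun x => (bits (f x) : List Bool)) := poly_of_polyTime hf
    have h2 : Poly (fun x => (unbits (List (List QEqn) × List (List Bool)) (bits (f x))).getD
        ([], [])) := Poly.optGetD (poly_unbits.comp h1) (NPC.Poly.const _)
    exact h2.congr fun x => by rw [unbits_bits, Option.getD_some]
  obtain ⟨r, hr⟩ := hf'.sz_le
  refine collapse (condE hp hT) hA (k := k) (d := d + 1) hf'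
    (Q := r.comp (Polynomial.C 4 * Polynomial.X + 1)) (fun x => (hfx x).1) ?_ ?_ L hL
  · intro x S hS e he
    have h1 : sz e ≤ r.eval (4 * x.length + 1) := by
      have e1 := sz_le_of_mem he
      have e2 := sz_le_of_mem hS
      have e3 : sz (f x).1 ≤ sz (f x) := by
        generalize f x = y
        obtain ⟨a, b⟩ := y
        rw [sz_pair]
        change sz a ≤ _
        omega
      have e4 := hr x
      have e5 := eval_mono r (sz_listBool_le x)
      omega
    have hQ : (r.comp (Polynomial.C 4 * Polynomial.X + 1)).eval x.length =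
        r.eval (4 * x.length + 1) := by simp
    rw [hQ]
    set M := r.eval (4 * x.length + 1) with hM
    obtain ⟨P, P'⟩ := e
    rw [sz_pair] at h1
    change clsE M (d + 1) (P, P')
    refine ⟨fun t ht => ⟨((hfx x).2.1 S hS _ he t ht).trans (Nat.le_succ d), fun q hq => ?_⟩, ?_⟩
    · have e1 := sz_le_of_mem hq
      have e2 := sz_listBool_ge q
      have e3 : sz t.2 ≤ sz t := by
        obtain ⟨a, b⟩ := t
        rw [sz_pair]
        change sz b ≤ _
        omega
      have e4 : sz t ≤ sz P + sz P' := by
        rcases List.mem_append.1 ht with ht | ht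
        · have := sz_le_of_mem ht
          change sz t < sz P at this
          omega
        · have := sz_le_of_mem ht
          change sz t < sz P' at this
          omega
      omega
    · have e1 := csum_lt P
      have e2 := csum_lt P'
      have e3 : 2 ^ sz P + 2 ^ sz P' ≤ 2 ^ (sz P + sz P' + 1) := by
        have f1 : 2 ^ sz P ≤ 2 ^ (sz P + sz P') := Nat.pow_le_pow_right (by norm_num) (by omega)
        have f2 : 2 ^ sz P' ≤ 2 ^ (sz P + sz P') := Nat.pow_le_pow_right (by norm_num) (by omega)
        rw [pow_succ]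
        omega
      have e4 : 2 ^ (sz P + sz P' + 1) ≤ 2 ^ (M * (d + 1)) := by
        refine Nat.pow_le_pow_right (by norm_num) ?_
        have : M ≤ M * (d + 1) := Nat.le_mul_of_pos_right _ (by omega)
        omega
      change csum P + csum P' ≤ _
      omega
  · intro x
    rw [(hfx x).2.2]
    have e : (f x).1.map (fun S => decide (∀ e ∈ S, Holds p T e)) =
        pat (condE hp hT).sat (f x).1 := by
      unfold pat
      apply List.map_congr_left
      intro S _
      congr
    rw [← e]

theorem exists_tally {p d k : ℕ} (h : KS.PEqNP) : ∃ T : Set (List Bool), Tally T ∧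
    ∃ A : Set (List Bool), NPHard A ∧ AlgReduces p d k A T := by
  refine ⟨∅, fun x hx => absurd hx (Set.notMem_empty x), KS.SAT, KS.hardI_Sat.toNPHardP, ?_⟩
  obtain ⟨V, hV, hVS⟩ := (h KS.SAT).2 KS.inNP_SAT
  refine ⟨fun x => (List.replicate k [], if V x = [true] then [List.replicate k true] else []),
    ?_, fun x => ⟨by simp, ?_, ?_⟩⟩
  · apply polyTime_bits
    have := poly_of_polyTime hV
    fun_prop
  · intro S hS e he
    rw [List.eq_of_mem_replicate hS] at he
    simp at he
  · rw [hVS x]
    by_cases h1 : V x = [true]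
    · simp [h1, List.map_replicate]
    · simp [h1]

end Pool.Agent.J6H27.TT
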