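import Pool.Agent.J6H27.TT.Cond

/-!
# Search for the largest certificate by pruning
-/

namespace Pool.Agent.J6H27.TT

open Pool.Agent.NPC Pool.Agent.H695R2 Pool.Agent.H660R2.NX

/-- the number with the binary digits `l`, most significant digit first -/
def val (l : List Bool) : ℕ := valB l.reverse

theorem val_append (q r : List Bool) : val (q ++ r) = val q * 2 ^ r.length + val r := by
  unfold val
  rw [List.reverse_append, valB_append, List.length_reverse]
  ring

theorem val_lt (r : List Bool) : val r < 2 ^ r.length := by
  unfold val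
  have := valB_lt r.reverse
  rwa [List.length_reverse] at this

theorem val_append_le {q π r : List Bool} {n : ℕ} (hr : r.length = n) :
    val (q ++ List.replicate n false) ≤ val (π ++ r) ↔ val q ≤ val π := by
  have h0 : ∀ n, val (List.replicate n false) = 0 := by
    intro n
    unfold val
    rw [List.reverse_replicate]
    induction n with
    | zero => rfl
    | succ n ih => rw [List.replicate_succ, valB_cons, ih]; simp
  rw [val_append, val_append, h0, List.length_replicate, hr, add_zero]
  have h1 := val_lt r
  rw [hr] at h1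
  constructor
  · intro h
    by_contra hn
    have h2 : (val π + 1) * 2 ^ n ≤ val q * 2 ^ n := Nat.mul_le_mul_right _ (by omega)
    rw [add_mul, one_mul] at h2
    omega
  · intro h
    have h2 : val q * 2 ^ n ≤ val π * 2 ^ n := Nat.mul_le_mul_right _ h
    omega

@[fun_prop]
theorem poly_val {α : Type} [TEnc α] {l : α → List Bool} (hl : Poly l) :
    Poly (fun a => val (l a)) := by
  unfold val
  exact Poly.valBits (Poly.reverse hl)

section

variable (W : List Bool × List Bool → Bool) (len : List Bool → ℕ)

/-- There is a certificate that is at least as large as the given string. -/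
def LC (x : List Bool × List Bool) : Prop :=
  ∃ u, u.length = len x.1 ∧ val x.2 ≤ val u ∧ W (x.1, u) = true

variable {W len}

theorem lc_inNP (hW : Poly W) (hlen : UPoly len) : InNP (lang (LC W len)) := by
  obtain ⟨r, hr⟩ := hlen.sz_le
  have hR : Poly (fun x : (List Bool × List Bool) × List Bool =>
      decide (x.2.length = len x.1.1) && (decide (val x.1.2 ≤ val x.2) && W (x.1.1, x.2))) := by
    have h1 : Poly (fun x : (List Bool × List Bool) × List Bool => len x.1.1) :=
      (hlen.comp (Poly.fst (Poly.fst Poly.id))).toPoly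
    have h3 : Poly (fun x : (List Bool × List Bool) × List Bool => W (x.1.1, x.2)) :=
      hW.comp (g := W) (f := fun x : (List Bool × List Bool) × List Bool => (x.1.1, x.2))
        (by fun_prop)
    exact Poly.and (Poly.dec_eq (by fun_prop) h1) (Poly.and (by fun_prop) h3)
  refine inNPP_of hR (Polynomial.C 4 * r + 1) (fun x => ?_)
  constructor
  · rintro ⟨u, h1, h2, h3⟩
    refine ⟨u, ?_, by simp only [Bool.and_eq_true, decide_eq_true_eq]; exact ⟨h1, h2, h3⟩⟩
    have e1 := sz_listBool_le u
    have e2 := hr x.1
    have e4 := length_lt_sz (List.replicate (len x.1) ())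
    rw [List.length_replicate] at e4
    have e3 : r.eval (sz x.1) ≤ r.eval (sz x) := by
      apply eval_mono
      obtain ⟨a, p⟩ := x
      rw [sz_pair]
      change sz a ≤ _
      omega
    simp only [Polynomial.eval_add, Polynomial.eval_mul, Polynomial.eval_C,
      Polynomial.eval_one]
    omega
  · rintro ⟨u, _, h⟩
    simp only [Bool.and_eq_true, decide_eq_true_eq] at h
    exact ⟨u, h.1, h.2.1, h.2.2⟩

end

section

variable {ρ : Type} [TEnc ρ] (𝒞 : Cond ρ) (k d : ℕ) (M D len : List Bool → ℕ)
  (h : List Bool × List Bool → List (List ρ) × List (List Bool))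

/-- a node of the search tree with the description of its left cut -/
def item (a q : List Bool) : List Bool × (List (List ρ) × List (List Bool)) :=
  (q, h (a, q ++ List.replicate (len a - q.length) false))

/-- the children of the nodes -/
def children (c : List (List Bool)) : List (List Bool) := c.flatMap (fun q => [q ++ [false], q ++ [true]])

/-- the nodes that survive the pruning -/
def kept (a : List Bool) (n : List (List Bool)) : List (List Bool) :=
  (prune (𝒞.imp (2 ^ k * d) (List.replicate (M a) ())) (fun j i => lev 𝒞.orR 𝒞.ff k j i.2)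
    (D a) (2 * k + 2) 0 (n.map (item len h a))).map (fun i => i.1)

/-- one round of the search -/
def next (a : List Bool) (c : List (List Bool)) : List (List Bool) :=
  ((children c).filter (fun q => decide (q ∈ kept 𝒞 k d M D len h a (children c)))).take
    ((D a + 1) ^ (2 * k + 2))

variable {M D len h}

theorem poly_next (hM : UPoly M) (hD : UPoly D) (hlen : UPoly len) (hh : Poly h) :
    Poly (fun x : List Bool × List (List Bool) => next 𝒞 k d M D len h x.1 x.2) := by
  have h1 : Poly (fun x : List Bool × List (List Bool) => children x.2) := by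
    unfold children
    fun_prop
  have h2 : Poly (fun x : List Bool × List Bool => item len h x.1 x.2) := by
    unfold item
    have h3 : Poly (fun x : List Bool × List Bool =>
        List.replicate (len x.1 - x.2.length) false) := by
      have e1 : UPoly (fun x : List Bool × List Bool => len x.1 - x.2.length) :=
        UPoly.of_le (n := fun x : List Bool × List Bool => len x.1)
          (Poly.sub (hlen.comp (Poly.fst Poly.id)).toPoly (by fun_prop))
          (hlen.comp (Poly.fst Poly.id)) (fun x => Nat.sub_le _ _)
      have e2 : Poly (fun x : List Bool × List Bool =>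
          (List.replicate (len x.1 - x.2.length) ()).map (fun _ => false)) :=
        NPC.Poly.map (F := fun _ _ => false) e1 (NPC.Poly.const _)
      exact e2.congr fun x => by simp
    have h4 : Poly (fun x : List Bool × List Bool =>
        h (x.1, x.2 ++ List.replicate (len x.1 - x.2.length) false)) :=
      hh.comp (g := h) (by fun_prop)
    fun_prop
  have hs : ∀ j, Poly (fun i : List Bool × (List (List ρ) × List (List Bool)) =>
      lev 𝒞.orR 𝒞.ff k j i.2) := fun j => poly_lev 𝒞 k j (by fun_prop)
  have h5 : Poly (fun x : List Bool × List (List Bool) => x.2.map (item len h x.1)) :=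
    NPC.Poly.map (F := fun (x : List Bool × List (List Bool)) q => item len h x.1 q)
      (by fun_prop) (h2.comp (f := fun p : (List Bool × List (List Bool)) × List Bool =>
        (p.1.1, p.2)) (by fun_prop))
  have hM' : Poly (fun x : List Bool × List (List Bool) => List.replicate (M x.1) ()) :=
    Poly.comp hM (Poly.fst Poly.id)
  have hD' : Poly (fun x : List Bool × List (List Bool) => List.replicate (D x.1) ()) :=
    Poly.comp hD (Poly.fst Poly.id)
  have h6 : Poly (fun x : List Bool × List (List Bool) => kept 𝒞 k d M D len h x.1 x.2) := by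
    unfold kept
    have e1 := (poly_prune 𝒞 hs (2 ^ k * d) (2 * k + 2) 0).comp
      (f := fun x : List Bool × List (List Bool) => (List.replicate (M x.1) (),
        List.replicate (D x.1) (), x.2.map (item len h x.1)))
      (Poly.pair hM' (Poly.pair hD' h5))
    have e2 := NPC.Poly.map (F := fun (_ : List Bool × List (List Bool))
      (i : List Bool × (List (List ρ) × List (List Bool))) => i.1) e1 (by fun_prop)
    exact e2.congr fun x => by simp
  have h7 : Poly (fun x : List Bool × List (List Bool) =>
      kept 𝒞 k d M D len h x.1 (children x.2)) :=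
    h6.comp (f := fun x : List Bool × List (List Bool) => (x.1, children x.2)) (by fun_prop)
  have h8 : UPoly (fun x : List Bool × List (List Bool) => (D x.1 + 1) ^ (2 * k + 2)) := by
    have e1 : UPoly (fun x : List Bool × List (List Bool) => D x.1) :=
      hD.comp (Poly.fst Poly.id)
    exact (e1.eval ((Polynomial.X + 1) ^ (2 * k + 2))).congr fun x => by simp
  unfold next
  refine poly_take ?_ h8.toPoly
  refine NPC.Poly.filter (p := fun (x : List Bool × List (List Bool)) q =>
    decide (q ∈ kept 𝒞 k d M D len h x.1 (children x.2))) h1 ?_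
  exact Poly.dec_mem (Poly.snd Poly.id) (h7.comp (Poly.fst Poly.id))

theorem mem_children {c : List (List Bool)} {q : List Bool} :
    q ∈ children c ↔ ∃ q' ∈ c, ∃ b : Bool, q = q' ++ [b] := by
  simp [children]

theorem next_length (a : List Bool) (c : List (List Bool)) (m : ℕ) (hc : ∀ q ∈ c, q.length = m) :
    ∀ q ∈ next 𝒞 k d M D len h a c, q.length = m + 1 := by
  intro q hq
  unfold next at hq
  have h1 := (List.mem_filter.1 (List.mem_of_mem_take hq)).1
  obtain ⟨q', hq', b, rfl⟩ := mem_children.1 h1
  simp [hc q' hq']

theorem next_card (a : List Bool) (c : List (List Bool)) :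
    (next 𝒞 k d M D len h a c).length ≤ (D a + 1) ^ (2 * k + 2) := by
  unfold next
  rw [List.length_take]
  exact Nat.min_le_left _ _

theorem poly_iterate_next (hM : UPoly M) (hD : UPoly D) (hlen : UPoly len) (hh : Poly h) :
    Poly (fun a => (next 𝒞 k d M D len h a)^[len a] [[]]) := by
  obtain ⟨r, hr⟩ := hlen.sz_le
  obtain ⟨r', hr'⟩ := hD.sz_le
  have key : ∀ a n, (∀ q ∈ (next 𝒞 k d M D len h a)^[n] [[]], q.length = n) ∧
      ((next 𝒞 k d M D len h a)^[n] [[]]).length ≤ (D a + 1) ^ (2 * k + 2) := by
    intro a n
    induction n with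
    | zero => simp; exact Nat.one_le_pow _ _ (by omega)
    | succ n ih =>
      rw [Function.iterate_succ_apply']
      exact ⟨next_length 𝒞 k d a _ n ih.1, next_card 𝒞 k d a _⟩
  refine (Poly.iterLen (l := fun a => List.replicate (len a) ()) (s := fun _ => [[]])
    (F := fun a => next 𝒞 k d M D len h a) hlen (NPC.Poly.const _)
    (poly_next 𝒞 k d hM hD hlen hh)
    ((r' + 1) ^ (2 * k + 2) * (Polynomial.C 4 * r + 2) + 1) ?_).congr ?_
  · intro a n hn
    rw [List.length_replicate] at hn
    obtain ⟨h1, h2⟩ := key a n
    have h3 := sz_le_length_mul ((next 𝒞 k d M D len h a)^[n] [[]]) (4 * n + 1) (by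
      intro q hq
      have := sz_listBool_le q
      rw [h1 q hq] at this
      exact this)
    have h4 := hr a
    have h5 := hr' a
    have h6 := length_lt_sz (List.replicate (len a) ())
    have h7 := length_lt_sz (List.replicate (D a) ())
    rw [List.length_replicate] at h6 h7
    refine h3.trans ?_
    simp only [Polynomial.eval_add, Polynomial.eval_mul, Polynomial.eval_pow, Polynomial.eval_C,
      Polynomial.eval_one, Polynomial.eval_ofNat]
    refine Nat.add_le_add_right (Nat.mul_le_mul (h2.trans (Nat.pow_le_pow_left (by omega) _))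
      (by omega)) 1
  · intro a
    rw [List.length_replicate]

variable {W : List Bool × List Bool → Bool}

/-- The invariant of the search. -/
def Inv (u : List Bool) (m : ℕ) (c : List (List Bool)) : Prop :=
  (∀ q ∈ c, q.length = m) ∧ c.Pairwise (fun q q' => val q < val q') ∧ u.take m ∈ c

theorem children_pairwise {c : List (List Bool)} (hc : c.Pairwise (fun q q' => val q < val q')) :
    (children c).Pairwise (fun q q' => val q < val q') := by
  have e : ∀ (q : List Bool) (b : Bool), val (q ++ [b]) = 2 * val q + (if b then 1 else 0) := by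
    intro q b
    rw [val_append]
    cases b <;> simp [val] <;> ring
  unfold children
  induction c with
  | nil => simp
  | cons q c ih =>
    rw [List.pairwise_cons] at hc
    rw [List.flatMap_cons, List.pairwise_append]
    refine ⟨?_, ih hc.2, ?_⟩
    · simp only [List.pairwise_cons, List.mem_singleton, forall_eq, List.not_mem_nil,
        IsEmpty.forall_iff, implies_true, List.Pairwise.nil, and_true]
      rw [e, e]
      simp
    · intro x hx y hy
      rw [List.mem_flatMap] at hy
      obtain ⟨q', hq', hy⟩ := hy
      have h1 := hc.1 q' hq'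
      simp only [List.mem_cons, List.not_mem_nil, or_false] at hx hy
      rcases hx with rfl | rfl <;> rcases hy with rfl | rfl <;> rw [e, e] <;> simp <;> omega

theorem inv_next (hD : ∀ a, (𝒞.bnd (2 ^ k * d)).eval (M a) ≤ D a)
    (hk : ∀ x, (h x).1.length = k)
    (hcls : ∀ a y, y.length = len a → ∀ s ∈ (h (a, y)).1, ∀ r ∈ s, 𝒞.cls (M a) d r)
    (hLC : ∀ x, LC W len x ↔ pat 𝒞.sat (h x).1 ∈ (h x).2)
    {a u : List Bool} (hu : u.length = len a) (hWu : W (a, u) = true)
    (hmax : ∀ u', u'.length = len a → W (a, u') = true → val u' ≤ val u)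
    {m : ℕ} (hm : m < len a) {c : List (List Bool)} (hc : Inv u m c) :
    Inv u (m + 1) (next 𝒞 k d M D len h a c) := by
  obtain ⟨hc1, hc2, hc3⟩ := hc
  have hp := children_pairwise hc2
  have hlenc : ∀ q ∈ children c, q.length = m + 1 := by
    intro q hq
    obtain ⟨q', hq', b, rfl⟩ := mem_children.1 hq
    simp [hc1 q' hq']
  have hπ : u.take (m + 1) ∈ children c := by
    rw [mem_children]
    refine ⟨u.take m, hc3, u[m]'(by omega), ?_⟩
    rw [List.take_add_one, List.getElem?_eq_getElem (by omega)]
    rfl
  set n := children c with hn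
  have hnd : n.Nodup := hp.imp (fun {a b} h => fun e => by rw [e] at h; exact lt_irrefl _ h)
  -- the pruning keeps the right node
  have hR : ∀ j, ∀ i ∈ n.map (item len h a), ∀ r ∈ lev 𝒞.orR 𝒞.ff k j i.2,
      𝒞.cls (M a) (2 ^ k * d) r := by
    intro j i hi
    rw [List.mem_map] at hi
    obtain ⟨q, hq, rfl⟩ := hi
    refine lev_class (cls := 𝒞.cls (M a)) (fun d d' r h hd => 𝒞.cls_mono _ _ _ _ r h le_rfl hd)
      (fun d d' r r' => 𝒞.cls_or _ d d' r r') (𝒞.cls_ff _) ?_
    unfold item
    apply hcls
    have := hlenc q hq
    rw [List.length_append, List.length_replicate]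
    omega
  have hDD : ∀ (j : ℕ) (b : List (List Bool × (List (List ρ) × List (List Bool)))),
      (∀ i ∈ b, i ∈ n.map (item len h a)) →
      (greedy (𝒞.imp (2 ^ k * d) (List.replicate (M a) ()))
        (b.flatMap (fun i => lev 𝒞.orR 𝒞.ff k j i.2))).length ≤ D a := by
    intro j b hb
    refine (𝒞.imp_bound _ _ _ (greedy_indep _) ?_).trans (hD a)
    intro r hr
    have h1 := greedy_mem hr
    rw [List.mem_flatMap] at h1
    obtain ⟨i, hi, hr⟩ := h1
    exact hR j i (hb i hi) r hr
  have hkeep : u.take (m + 1) ∈ kept 𝒞 k d M D len h a n := by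
    obtain ⟨pre, post, hsplit⟩ := List.append_of_mem hπ
    unfold kept
    rw [List.mem_map]
    refine ⟨item len h a (u.take (m + 1)), ?_, rfl⟩
    rw [hsplit] at hp
    rw [List.pairwise_append] at hp
    obtain ⟨_, hp2, hp3⟩ := hp
    rw [List.pairwise_cons] at hp2
    have hF : ∀ q ∈ n, (pat 𝒞.sat (item len h a q).2.1 ∈ (item len h a q).2.2 ↔
        val q ≤ val (u.take (m + 1))) := by
      intro q hq
      unfold item
      rw [← hLC]
      have hql := hlenc q hq
      have hlr : (u.drop (m + 1)).length = len a - (m + 1) := by rw [List.length_drop, hu]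
      constructor
      · rintro ⟨u', h1, h2, h3⟩
        have h4 := h2.trans (hmax u' h1 h3)
        rw [← List.take_append_drop (m + 1) u] at h4
        simp only [hql] at h4
        rwa [val_append_le hlr] at h4
      · intro hle
        refine ⟨u, hu, ?_, hWu⟩
        conv_rhs => rw [← List.take_append_drop (m + 1) u]
        simp only [hql]
        rwa [val_append_le hlr]
    rw [hsplit, List.map_append, List.map_cons]
    refine prune_correct (sat := 𝒞.sat) (R := 𝒞.cls (M a) (2 ^ k * d))
      (F := fun i => pat 𝒞.sat i.2.1 ∈ i.2.2) (J := 2 * k + 2)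
      (B := n.map (item len h a)) (by omega) hR
      (fun l r _ h1 h2 h3 h4 => 𝒞.imp_sound _ _ l r h1 h2 h3 h4) ?_ ?_ hDD (2 * k + 2) 0 (by omega)
      _ _ _ ?_ ?_ ?_ ?_ ?_
    · intro j i hi hj hF'
      rw [List.mem_map] at hi
      obtain ⟨q, hq, rfl⟩ := hi
      exact lev_step 𝒞.sat_or 𝒞.sat_ff (hk _) hj hF'
    · intro i _
      exact lev_last 𝒞.sat_or 𝒞.sat_ff
    · intro i hi
      rw [hsplit, List.map_append, List.map_cons]
      exact hi
    · intro i hi
      rw [List.mem_map] at hi
      obtain ⟨q, hq, rfl⟩ := hi
      have h1 := hp3 q hq _ (List.mem_cons_self ..)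
      have h2 := (hF q (by rw [hsplit]; simp [hq])).2 h1.le
      exact ⟨fun _ => rfl, fun _ => h2⟩
    · intro i hi
      rw [List.mem_map] at hi
      obtain ⟨q, hq, rfl⟩ := hi
      have h1 := hp2.1 q hq
      have h2 : ¬ pat 𝒞.sat (item len h a q).2.1 ∈ (item len h a q).2.2 := by
        rw [hF q (by rw [hsplit]; simp [hq])]
        omega
      exact ⟨fun h => absurd h h2, fun h => by simp at h⟩
    · exact (hF _ hπ).2 le_rfl
    · intro i _
      exact Or.inl rfl
  -- the list is short
  have hshort : (n.filter (fun q => decide (q ∈ kept 𝒞 k d M D len h a n))).length ≤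
      (D a + 1) ^ (2 * k + 2) := by
    have h1 : (n.filter (fun q => decide (q ∈ kept 𝒞 k d M D len h a n))).length ≤
        (kept 𝒞 k d M D len h a n).length := by
      refine (List.Nodup.subperm (hnd.filter _) ?_).length_le
      intro q hq
      simpa using (List.mem_filter.1 hq).2
    have h2 := prune_length (imp := 𝒞.imp (2 ^ k * d) (List.replicate (M a) ()))
      (fun j (i : List Bool × (List (List ρ) × List (List Bool))) => lev 𝒞.orR 𝒞.ff k j i.2)
      (D a) (n.map (item len h a)) hDD (2 * k + 2) 0 (n.map (item len h a)) (fun i hi => hi)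
    unfold kept at h1 ⊢
    rw [List.length_map] at h1
    omega
  have hnext : next 𝒞 k d M D len h a c =
      n.filter (fun q => decide (q ∈ kept 𝒞 k d M D len h a n)) := by
    unfold next
    rw [List.take_of_length_le hshort]
  refine ⟨next_length 𝒞 k d a c m hc1, ?_, ?_⟩
  · rw [hnext]
    exact hp.filter _
  · rw [hnext, List.mem_filter]
    exact ⟨hπ, by simpa using hkeep⟩

end

/-- If an `NP`-hard set is described by Boolean combinations of `k` systems of conditions, then
`P = NP`. -/
theorem collapse {ρ : Type} [TEnc ρ] (𝒞 : Cond ρ) {A : Set (List Bool)} (hA : NPHard A)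
    {k d : ℕ} {f : List Bool → List (List ρ) × List (List Bool)} (hf : Poly f)
    {Q : Polynomial ℕ} (hk : ∀ x, (f x).1.length = k)
    (hcls : ∀ x, ∀ s ∈ (f x).1, ∀ r ∈ s, 𝒞.cls (Q.eval x.length) d r)
    (hfA : ∀ x, x ∈ A ↔ pat 𝒞.sat (f x).1 ∈ (f x).2) (L : Set (List Bool)) (hL : InNP L) :
    InP L := by
  obtain ⟨V, p, hV, hL⟩ := hL
  have hV' := poly_of_polyTime hV
  -- the verifier with padded certificates
  let W : List Bool × List Bool → Bool := fun x =>
    decide ((strip x.2).length ≤ p.eval x.1.length) && decide (V (pairBits x.1 (strip x.2)) = [true])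
  let len : List Bool → ℕ := fun a => p.eval a.length + 1
  have hWdef : ∀ x : List Bool × List Bool, W x =
    (decide ((strip x.2).length ≤ p.eval x.1.length) &&
      decide (V (pairBits x.1 (strip x.2)) = [true])) := fun _ => rfl
  have hW : Poly W := by
    have h1 : Poly (fun x : List Bool × List Bool => strip x.2) :=
      poly_strip.comp (Poly.snd Poly.id)
    have h2 : Poly (fun x : List Bool × List Bool => p.eval x.1.length) :=
      (UPoly.eval (UPoly.length (Poly.fst Poly.id)) p).toPoly
    have h3 : Poly (fun x : List Bool × List Bool => V (pairBits x.1 (strip x.2))) :=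
      hV'.comp (poly_pairBits (Poly.fst Poly.id) h1)
    exact Poly.and (Poly.decide_le (Poly.length h1) h2) (Poly.dec_eq h3 (NPC.Poly.const _))
  have hlen : UPoly len := UPoly.add (UPoly.eval (UPoly.length Poly.id) p) (UPoly.const 1)
  obtain ⟨g, hg, hgA⟩ := hA _ (lc_inNP hW hlen)
  obtain ⟨G, hG⟩ := length_bound hg
  let h : List Bool × List Bool → List (List ρ) × List (List Bool) := fun x => f (g (bits x))
  have hh : Poly h := by
    have h0 : PC (bits : List Bool × List Bool → List Bool) (fun x : List Bool => x)
        (fun x => bits x) := by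
      obtain ⟨c, p, h⟩ := PC.id (ea := (bits : List Bool × List Bool → List Bool))
      exact ⟨c, p, h⟩
    have h1 : Poly (fun x : List Bool × List Bool => (bits x : List Bool)) :=
      PC.comp (g := fun x => x) (f := fun x : List Bool × List Bool => (bits x : List Bool))
        PC.rawIn h0
    exact hf.comp ((poly_of_polyTime hg).comp h1)
  let Mp : Polynomial ℕ := Q.comp (G.comp (Polynomial.C 4 * Polynomial.X +
    Polynomial.C 4 * (p + 1) + Polynomial.C 3))
  let M : List Bool → ℕ := fun a => Mp.eval a.length
  let D : List Bool → ℕ := fun a => ((𝒞.bnd (2 ^ k * d)).comp Mp).eval a.length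
  have hM : UPoly M := UPoly.eval (UPoly.length Poly.id) _
  have hD : UPoly D := UPoly.eval (UPoly.length Poly.id) _
  have hLC : ∀ x, LC W len x ↔ pat 𝒞.sat (h x).1 ∈ (h x).2 := by
    intro x
    rw [← hfA, ← hgA, bits_mem_lang]
  have hcls' : ∀ a y, y.length = len a → ∀ s ∈ (h (a, y)).1, ∀ r ∈ s, 𝒞.cls (M a) d r := by
    intro a y hy s hs r hr
    refine 𝒞.cls_mono _ _ _ _ r (hcls _ s hs r hr) ?_ le_rfl
    have e1 : (bits (a, y)).length ≤ 4 * a.length + 4 * (p.eval a.length + 1) + 3 := by
      rw [bits_length, sz_pair]
      have e1 := sz_listBool_le a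
      have e2 := sz_listBool_le y
      rw [hy] at e2
      change sz y ≤ 4 * (p.eval a.length + 1) + 1 at e2
      omega
    have e2 := (hG (bits (a, y))).trans (eval_mono G e1)
    refine (eval_mono Q e2).trans (le_of_eq ?_)
    simp only [M, Mp, Polynomial.eval_comp, Polynomial.eval_add, Polynomial.eval_mul,
      Polynomial.eval_C, Polynomial.eval_X, Polynomial.eval_one]
  have hDM : ∀ a, (𝒞.bnd (2 ^ k * d)).eval (M a) ≤ D a := by
    intro a
    simp only [D, M, Polynomial.eval_comp]
    exact le_rfl
  -- the algorithm
  have halg : Poly (fun a => ((next 𝒞 k d M D len h a)^[len a] [[]]).any (fun u => W (a, u))) := by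
    refine Poly.any (p := fun a u => W (a, u)) (poly_iterate_next 𝒞 k d hM hD hlen hh) ?_
    exact hW.comp (by fun_prop)
  refine ⟨_, polyTime_of_poly halg, fun a => ?_⟩
  simp only [List.cons.injEq, and_true, List.any_eq_true]
  constructor
  · intro ha
    obtain ⟨w, hw, hVw⟩ := (hL a).1 ha
    have hex : ∃ u, u.length = len a ∧ W (a, u) = true := by
      refine ⟨pad (p.eval a.length) w, length_pad hw, ?_⟩
      rw [hWdef]
      simp only [Bool.and_eq_true, decide_eq_true_eq, strip_pad]
      exact ⟨hw, hVw⟩
    -- the largest witness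
    obtain ⟨u, hu, hWu, hmax⟩ : ∃ u, u.length = len a ∧ W (a, u) = true ∧
        ∀ u', u'.length = len a → W (a, u') = true → val u' ≤ val u := by
      classical
      have hne : ∃ n, ∃ u, u.length = len a ∧ W (a, u) = true ∧ 2 ^ len a - val u = n := by
        obtain ⟨u, h1, h2⟩ := hex
        exact ⟨_, u, h1, h2, rfl⟩
      obtain ⟨u, h1, h2, h3⟩ := Nat.find_spec hne
      refine ⟨u, h1, h2, fun u' h4 h5 => ?_⟩
      have h6 := Nat.find_min' hne ⟨u', h4, h5, rfl⟩
      rw [← h3] at h6
      have h7 := val_lt u
      have h8 := val_lt u'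
      rw [h1] at h7
      rw [h4] at h8
      omega
    have hinv : ∀ m ≤ len a, Inv u m ((next 𝒞 k d M D len h a)^[m] [[]]) := by
      intro m
      induction m with
      | zero =>
        intro _
        exact ⟨by simp, by simp, by simp⟩
      | succ m ih =>
        intro hm
        rw [Function.iterate_succ_apply']
        exact inv_next 𝒞 k d hDM (fun x => hk _) hcls' hLC hu hWu hmax (by omega) (ih (by omega))
    have h1 := (hinv (len a) le_rfl).2.2
    rw [List.take_of_length_le (by omega)] at h1
    exact ⟨u, h1, hWu⟩
  · rintro ⟨u, _, hWu⟩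
    rw [hWdef] at hWu
    simp only [Bool.and_eq_true, decide_eq_true_eq] at hWu
    exact (hL a).2 ⟨strip u, hWu.1, hWu.2⟩

end Pool.Agent.J6H27.TT
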